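import Pool.Agent.H46.HP.Gcd

set_option autoImplicit false

/-!
# Comparison of a rational number with a fixed real algebraic number
-/

namespace Pool.Agent.H46.HP

open Pool.Agent.H80.Poly Pool.Agent.H30.Hped Polynomial

lemma polyTime_pow (n : ℕ) : PolyTime (fun q : ℚ => q ^ n) := by
  induction n with
  | zero => exact (PolyTime.const (1 : ℚ)).congr (fun q => by simp)
  | succ n ih => exact (PolyTime.ratMul ih PolyTime.id).congr (fun q => by rw [pow_succ])

lemma polyTime_evalQ (m : ℚ[X]) : PolyTime (fun q : ℚ => m.eval q) := by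
  induction m using Polynomial.induction_on' with
  | add p r hp hr => exact (PolyTime.ratAdd hp hr).congr (fun q => by rw [Polynomial.eval_add])
  | monomial n c =>
    exact (PolyTime.ratMul (PolyTime.const c) (polyTime_pow n)).congr
      (fun q => by rw [Polynomial.eval_monomial])

lemma exists_pos_deriv {δ : ℝ} (h : IsAlgebraic ℚ δ) :
    ∃ m : ℚ[X], aeval δ m = 0 ∧ 0 < aeval δ (derivative m) := by
  have h1 : IsIntegral ℚ δ := h.isIntegral
  have h2 := (minpoly.irreducible h1).separable
  have h3 := minpoly.aeval ℚ δ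
  have h4 := h2.aeval_derivative_ne_zero h3
  rcases lt_or_gt_of_ne h4 with h5 | h5
  · refine ⟨-(minpoly ℚ δ), by rw [map_neg, h3, neg_zero], ?_⟩
    rw [derivative_neg, map_neg]
    linarith
  · exact ⟨minpoly ℚ δ, h3, h5⟩

theorem exists_cmp {δ : ℝ} (h : IsAlgebraic ℚ δ) :
    ∃ c : ℚ → Bool, PolyTime c ∧ ∀ q : ℚ, c q = true ↔ δ < (q : ℝ) := by
  obtain ⟨m, h1, h2⟩ := exists_pos_deriv h
  have h3 : deriv (fun x : ℝ => aeval x m) δ > 0 := by
    rw [Polynomial.deriv_aeval]
    exact h2
  have h4 := eventually_nhdsWithin_sign_eq_of_deriv_pos h3 h1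
  obtain ⟨ε, hε, h5⟩ := Metric.eventually_nhds_iff.mp h4
  obtain ⟨a, ha1, ha2⟩ := exists_rat_btwn (show δ - ε < δ by linarith)
  obtain ⟨b, hb1, hb2⟩ := exists_rat_btwn (show δ < δ + ε by linarith)
  have hq : PolyTime (fun q : ℚ => q) := PolyTime.id
  refine ⟨fun q => decide (b ≤ q) || (decide (a < q) && decide (0 < m.eval q)),
    (PolyTime.ratLe (PolyTime.const b) hq).or ((PolyTime.ratLt (PolyTime.const a) hq).and
      (PolyTime.ratLt (PolyTime.const 0) (polyTime_evalQ m))), fun q => ?_⟩
  rw [Bool.or_eq_true, Bool.and_eq_true, decide_eq_true_eq, decide_eq_true_eq, decide_eq_true_eq]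
  by_cases hbq : b ≤ q
  · have : (b : ℝ) ≤ (q : ℝ) := by exact_mod_cast hbq
    exact ⟨fun _ => by linarith, fun _ => Or.inl hbq⟩
  · by_cases haq : a < q
    · have r1 : (a : ℝ) < (q : ℝ) := by exact_mod_cast haq
      have r2 : (q : ℝ) < (b : ℝ) := by exact_mod_cast not_le.mp hbq
      have r3 : dist (q : ℝ) δ < ε := by
        rw [Real.dist_eq, abs_lt]
        constructor <;> linarith
      have r4 := h5 r3
      have r5 : aeval (q : ℝ) m = ((m.eval q : ℚ) : ℝ) := by
        have := Polynomial.aeval_algebraMap_apply ℝ q m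
        simpa using this
      rw [r5] at r4
      have r6 : 0 < m.eval q ↔ δ < (q : ℝ) := by
        have s1 : 0 < ((m.eval q : ℚ) : ℝ) ↔ 0 < m.eval q := by exact_mod_cast Iff.rfl
        rw [← s1, ← sign_eq_one_iff, r4, sign_eq_one_iff, sub_pos]
      rw [← r6]
      exact ⟨fun h => h.resolve_left hbq |>.2, fun h => Or.inr ⟨haq, h⟩⟩
    · have r1 : (q : ℝ) ≤ (a : ℝ) := by exact_mod_cast not_lt.mp haq
      constructor
      · rintro (h | h)
        · exact absurd h hbq
        · exact absurd h.1 haq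
      · intro h
        linarith

end Pool.Agent.H46.HP
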