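import Pool.Agent.H46.HP.Gcd

set_option autoImplicit false

/-!
# Decoding of bit strings in polynomial time
-/

namespace Pool.Agent.H46.HP

open Pool.Agent.H80.Poly Pool.Agent.H30.Hped Function

/-! ### splitting a pair -/

/-- one step; the state is: (inside the second component, a data bit is expected), the two
components, reversed -/
def upStep (s : (Bool × Bool) × (List Bool × List Bool)) (b : Bool) :
    (Bool × Bool) × (List Bool × List Bool) :=
  bif s.1.1 then ((true, false), (s.2.1, b :: s.2.2))
  else bif s.1.2 then ((false, false), (b :: s.2.1, s.2.2))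
  else bif b then ((false, true), s.2) else ((true, false), s.2)

/-- the state after reading a string -/
def upRun (w : List Bool) (s : (Bool × Bool) × (List Bool × List Bool)) :
    (Bool × Bool) × (List Bool × List Bool) := w.foldl upStep s

/-- the two components of a pair of strings -/
def unpair (w : List Bool) : List Bool × List Bool :=
  ((upRun w ((false, false), ([], []))).2.1.reverse,
    (upRun w ((false, false), ([], []))).2.2.reverse)

lemma upRun_rest : ∀ (y a c : List Bool), upRun y ((true, false), (a, c)) =
    ((true, false), (a, y.reverse ++ c)) := by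
  intro y
  induction y with
  | nil => intro a c; rfl
  | cons b y ih =>
    intro a c
    have : upRun (b :: y) ((true, false), (a, c)) = upRun y ((true, false), (a, b :: c)) := rfl
    rw [this, ih]
    simp

lemma upRun_pr : ∀ (x y a c : List Bool), upRun (pr x y) ((false, false), (a, c)) =
    ((true, false), (x.reverse ++ a, y.reverse ++ c)) := by
  intro x
  induction x with
  | nil =>
    intro y a c
    have : upRun (pr [] y) ((false, false), (a, c)) = upRun y ((true, false), (a, c)) := rfl
    rw [this, upRun_rest]
    rfl
  | cons b x ih =>
    intro y a c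
    have : upRun (pr (b :: x) y) ((false, false), (a, c)) =
        upRun (pr x y) ((false, false), (b :: a, c)) := rfl
    rw [this, ih]
    simp

lemma unpair_pr (x y : List Bool) : unpair (pr x y) = (x, y) := by
  unfold unpair
  rw [upRun_pr]
  simp

lemma upRun_length : ∀ (w : List Bool) (s : (Bool × Bool) × (List Bool × List Bool)),
    (upRun w s).2.1.length + (upRun w s).2.2.length ≤ s.2.1.length + s.2.2.length + w.length := by
  intro w
  induction w with
  | nil => intro s; exact le_rfl
  | cons b w ih =>
    intro s
    have h : upRun (b :: w) s = upRun w (upStep s b) := rfl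
    rw [h]
    have h1 := ih (upStep s b)
    have h2 : (upStep s b).2.1.length + (upStep s b).2.2.length ≤
        s.2.1.length + s.2.2.length + 1 := by
      obtain ⟨⟨p, q⟩, ⟨x, y⟩⟩ := s
      unfold upStep
      cases p <;> cases q <;> cases b <;> simp <;> omega
    simp only [List.length_cons]
    omega

lemma unpair_length (w : List Bool) :
    (unpair w).1.length + (unpair w).2.length ≤ w.length := by
  have h := upRun_length w ((false, false), ([], []))
  unfold unpair
  simp only [List.length_reverse, List.length_nil] at h ⊢
  omega

lemma size_bits (s : List Bool) : size s = 3 * s.length := by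
  induction s with
  | nil => rfl
  | cons b s ih =>
    rw [size_cons, ih, size_bool, List.length_cons]
    ring

variable {α β γ : Type} [BEnc α] [BEnc β] [BEnc γ]

lemma polyTime_upStep :
    PolyTime (fun w : Unit × ((Bool × Bool) × (List Bool × List Bool)) × Bool =>
      upStep w.2.1 w.2.2) := by
  have hw : PolyTime (fun w : Unit × ((Bool × Bool) × (List Bool × List Bool)) × Bool => w) :=
    PolyTime.id
  have hs := hw.snd.fst
  have hb := hw.snd.snd
  exact PolyTime.cond hs.fst.fst ((PolyTime.const (true, false)).pair
      (hs.snd.fst.pair (hb.cons hs.snd.snd)))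
    (PolyTime.cond hs.fst.snd ((PolyTime.const (false, false)).pair
      ((hb.cons hs.snd.fst).pair hs.snd.snd))
    (PolyTime.cond hb ((PolyTime.const (false, true)).pair hs.snd)
      ((PolyTime.const (true, false)).pair hs.snd)))

lemma polyTime_unpair {f : γ → List Bool} (hf : PolyTime f) :
    PolyTime (fun a => unpair (f a)) := by
  have h : PolyTime (fun w : List Bool => upRun w ((false, false), ([], []))) := by
    have h1 := PolyTime.foldl_add (α := List Bool) (l := fun w => w)
      (f := fun _ => ((false, false), (([] : List Bool), ([] : List Bool))))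
      (h := fun w : List Bool × ((Bool × Bool) × (List Bool × List Bool)) × Bool =>
        upStep w.2.1 w.2.2)
      PolyTime.id (PolyTime.const _)
      (polyTime_upStep.comp ((PolyTime.const ()).pair (PolyTime.snd' (α := List Bool)))) (by
        refine ⟨fun _ => 100, PB.const 100, ?_⟩
        rintro a ⟨⟨p, q⟩, ⟨x, y⟩⟩ b _
        unfold upStep
        cases p <;> cases q <;> cases b <;>
          simp only [cond_true, cond_false, size_pair, size_bits, size_bool, List.length_cons] <;>
          omega)
    exact h1
  exact (((h.comp hf).snd.fst).reverse).pair (((h.comp hf).snd.snd).reverse)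

/-! ### splitting a list -/

/-- one step of the splitting of a list -/
def spStep (s : List Bool × List (List Bool)) : List Bool × List (List Bool) :=
  bif s.1.isEmpty then s else ((unpair s.1).2, (unpair s.1).1 :: s.2)

/-- the items of a list of strings -/
def split (w : List Bool) : List (List Bool) :=
  (w.foldl (fun s _ => spStep s) (w, [])).2.reverse

lemma foldl_spStep_nil : ∀ (w : List Bool) (acc : List (List Bool)),
    w.foldl (fun s _ => spStep s) (([] : List Bool), acc) = ([], acc) := by
  intro w
  induction w with
  | nil => intro acc; rfl
  | cons b w ih => intro acc; exact ih acc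

lemma foldl_spStep : ∀ (l : List α) (u : List Bool) (acc : List (List Bool)), l.length ≤ u.length →
    u.foldl (fun s _ => spStep s) (enc l, acc) = ([], (l.map enc).reverse ++ acc) := by
  intro l
  induction l with
  | nil =>
    intro u acc _
    exact foldl_spStep_nil u acc
  | cons a l ih =>
    intro u acc hu
    cases u with
    | nil => simp at hu
    | cons b u =>
      rw [List.foldl_cons]
      have h1 : spStep (enc (a :: l), acc) = (enc l, enc a :: acc) := by
        unfold spStep
        have h2 : (enc (a :: l)).isEmpty = false := by
          rw [enc_cons, List.isEmpty_eq_false_iff]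
          exact pr_ne_nil _ _
        simp only
        rw [h2, cond_false, enc_cons, unpair_pr]
      rw [h1, ih u _ (by simpa using hu)]
      simp

lemma split_enc (l : List α) : split (enc l) = l.map enc := by
  unfold split
  rw [foldl_spStep l (enc l) [] (length_le_size l)]
  simp

lemma polyTime_split {f : γ → List Bool} (hf : PolyTime f) :
    PolyTime (fun a => split (f a)) := by
  have hw : PolyTime (fun w : List Bool × (List Bool × List (List Bool)) × Bool => w) :=
    PolyTime.id
  have hu := polyTime_unpair hw.snd.fst.fst
  have h : PolyTime (fun w : List Bool => w.foldl (fun s _ => spStep s) (w, [])) := by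
    refine PolyTime.foldl_add (α := List Bool) (l := fun w => w)
      (f := fun w => (w, ([] : List (List Bool))))
      (h := fun w : List Bool × (List Bool × List (List Bool)) × Bool => spStep w.2.1)
      PolyTime.id (PolyTime.id.pair (PolyTime.const _))
      (PolyTime.cond hw.snd.fst.fst.isEmpty hw.snd.fst
        (hu.snd.pair (hu.fst.cons hw.snd.fst.snd))) ?_
    refine ⟨fun _ => 100, PB.const 100, ?_⟩
    rintro a ⟨r, acc⟩ b _
    unfold spStep
    have h1 := unpair_length r
    cases hr : r.isEmpty
    · simp only [hr, cond_false, size_pair, size_bits, size_cons]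
      omega
    · simp only [cond_true]
      omega
  exact ((h.comp hf).snd).reverse

/-! ### decoders -/

/-- the type has a polynomial-time decoder -/
def Dec (α : Type) [BEnc α] : Prop := ∃ d : List Bool → α, PolyTime d ∧ ∀ a, d (enc a) = a

lemma dec_bool : Dec Bool :=
  ⟨fun w => w.headD false, PolyTime.headD false PolyTime.id, fun _ => rfl⟩

lemma dec_nat : Dec ℕ :=
  ⟨fun w => val w, PolyTime.val PolyTime.id, fun a => val_encodeNat a⟩

lemma dec_prod (h1 : Dec α) (h2 : Dec β) : Dec (α × β) := by
  obtain ⟨d1, hd1, e1⟩ := h1
  obtain ⟨d2, hd2, e2⟩ := h2
  refine ⟨fun w => (d1 (unpair w).1, d2 (unpair w).2),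
    (hd1.comp (polyTime_unpair PolyTime.id).fst).pair
      (hd2.comp (polyTime_unpair PolyTime.id).snd), fun a => ?_⟩
  beta_reduce
  rw [enc_prod, unpair_pr, e1, e2]

lemma dec_list (h1 : Dec α) : Dec (List α) := by
  obtain ⟨d1, hd1, e1⟩ := h1
  refine ⟨fun w => (split w).map d1, ?_, fun a => ?_⟩
  · exact PolyTime.map (g := fun z : List Bool × List Bool => d1 z.2)
      (polyTime_split PolyTime.id) (hd1.comp PolyTime.snd')
  · beta_reduce
    rw [split_enc, List.map_map]
    have : (d1 ∘ enc) = (id : α → α) := funext e1
    rw [this, List.map_id]

lemma dec_int : Dec ℤ := by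
  obtain ⟨d, hd, e⟩ := dec_prod dec_bool dec_nat
  refine ⟨fun w => signed (d w).1 (d w).2, PolyTime.signed hd.fst hd.snd, fun z => ?_⟩
  have h : enc z = enc (decide (z < 0), z.natAbs) := rfl
  beta_reduce
  rw [h, e]
  exact signed_eq z

lemma dec_raw : Dec Raw :=
  dec_prod (dec_list (dec_prod (dec_prod dec_int dec_nat) (dec_prod dec_int dec_nat)))
    (dec_list (dec_prod dec_nat dec_nat))

lemma dec_frac : Dec (ℤ × ℕ) := dec_prod dec_int dec_nat

/-- decoding with a test of the format -/
theorem exists_parse (h : Dec α) : ∃ t : List Bool → Option α, PolyTime t ∧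
    ∀ w a, t w = some a ↔ enc a = w := by
  obtain ⟨d, hd, e⟩ := h
  refine ⟨fun w => bif decide (strToList (toStr (d w)) = w) then some (d w) else none, ?_, ?_⟩
  · exact PolyTime.cond (PolyTime.eqListBool
      (PolyTime.strToList'.comp (PolyTime.toStr'.comp hd)) PolyTime.id) hd.some
      (PolyTime.const none)
  · intro w a
    have h1 : strToList (toStr (d w)) = enc (d w) := rfl
    beta_reduce
    rw [h1]
    by_cases h2 : enc (d w) = w
    · simp only [h2, decide_true, cond_true, Option.some.injEq]
      constructor
      · rintro rfl; exact h2
      · intro h3; rw [← h3, e]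
    · simp only [h2, decide_false, cond_false]
      constructor
      · intro h3; exact absurd h3 (by simp)
      · intro h3
        exfalso
        apply h2
        rw [← h3, e]

end Pool.Agent.H46.HP
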