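import Pool.Agent.H30.HpedDefs
import Pool.Agent.H83.TK.Defs

set_option autoImplicit false

/-!
# Recognising homogeneous partial edge drawings: the languages
-/

namespace Pool.Agent.H46.HP

open Pool.Agent.H30.Hped

/-- The bit string `w` encodes a straight-line drawing that admits a `δ`-HPED. -/
def Hped (δ : ℝ) (w : List Bool) : Prop :=
  ∃ Γ : Drawing, encDrawing Γ = w ∧ AdmitsHPED δ Γ

/-- The bit string `w` encodes a rational number greater than `δ`. -/
def Cut (δ : ℝ) (w : List Bool) : Prop :=
  ∃ q : ℚ, encRat q = w ∧ δ < (q : ℝ)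

end Pool.Agent.H46.HP
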