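import Pool.Agent.H46.HP.NP
import Pool.Agent.H46.HP.Alg

set_option autoImplicit false

/-!
# Recognising `δ`-HPEDs, for every real `δ`: the parts of the theorem
-/

namespace Pool.Agent.H46.HP

open Pool.Agent.H80.Poly Pool.Agent.H30.Hped Pool.Agent.H72.NP Function

theorem part_threshold : ∃ θ : Drawing → ℚ, PolyTimeFun encDrawing encRat θ ∧
    ∀ Γ, 0 < θ Γ ∧ θ Γ ≤ 1 / 2 ∧
      ∀ δ : ℝ, 0 < δ → δ < 1 / 2 → (AdmitsHPED δ Γ ↔ δ < (θ Γ : ℝ)) := by
  refine ⟨thr, ?_, fun Γ => ⟨thr_pos Γ, thr_le_half Γ, fun δ h0 h1 => thr_iff h0 h1 Γ⟩⟩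
  rw [encDrawing_eq, encRat_eq]
  exact polyTime_thr.tm2

theorem part_reductions : ∃ f g : List Bool → List Bool,
    PolyTimeFun (id : List Bool → List Bool) (id : List Bool → List Bool) f ∧
    PolyTimeFun (id : List Bool → List Bool) (id : List Bool → List Bool) g ∧
    ∀ δ : ℝ, 0 < δ → δ < 1 / 2 → ∀ w, (Hped δ w ↔ Cut δ (f w)) ∧ (Cut δ w ↔ Hped δ (g w)) := by
  obtain ⟨τ, hτ, h1, h2⟩ := exists_thrS
  obtain ⟨g, hg, h3⟩ := exists_gadS
  refine ⟨fun w => codeQ (τ w), g, Pool.Agent.H83.TK.polyTimeFun_id_iff.mpr (polyTime_codeQ hτ),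
    Pool.Agent.H83.TK.polyTimeFun_id_iff.mpr hg, fun δ h0 hδ w => ⟨?_, h3 δ h0 hδ w⟩⟩
  rw [cut_code]
  exact hped_iff_thrS h1 h2 h0 hδ w

theorem inP_comp {P Q : List Bool → Prop} {f : List Bool → List Bool}
    (hf : PolyTimeFun (id : List Bool → List Bool) (id : List Bool → List Bool) f)
    (h : ∀ w, P w ↔ Q (f w))
    (hQ : Pool.Agent.H83.TK.InP (id : List Bool → List Bool) {w | Q w}) :
    Pool.Agent.H83.TK.InP (id : List Bool → List Bool) {w | P w} := by
  rw [Pool.Agent.H83.TK.inP_iff] at hQ ⊢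
  obtain ⟨b, hb, hs⟩ := hQ
  rw [Pool.Agent.H83.TK.polyTimeFun_id_iff] at hf
  refine ⟨fun w => b (f w), hb.comp hf, fun w => ?_⟩
  show P w ↔ _
  rw [h w]
  exact hs (f w)

theorem part_equiv {δ : ℝ} (h0 : 0 < δ) (h1 : δ < 1 / 2) :
    Pool.Agent.H83.TK.InP (id : List Bool → List Bool) {w | Hped δ w} ↔
      Pool.Agent.H83.TK.InP (id : List Bool → List Bool) {w | Cut δ w} := by
  obtain ⟨f, g, hf, hg, h⟩ := part_reductions
  exact ⟨inP_comp hg (fun w => (h δ h0 h1 w).2), inP_comp hf (fun w => (h δ h0 h1 w).1)⟩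

theorem part_cut_algebraic {δ : ℝ} (h : IsAlgebraic ℚ δ) :
    Pool.Agent.H83.TK.InP (id : List Bool → List Bool) {w | Cut δ w} := by
  rw [Pool.Agent.H83.TK.inP_iff]
  obtain ⟨c, hc, hs⟩ := exists_cmp h
  obtain ⟨t, ht, e⟩ := exists_parse dec_rat
  have hz : PolyTime (fun z : ℚ × List Bool => z) := PolyTime.id
  refine ⟨fun w => (t w).elim false c, ?_, fun w => ?_⟩
  · exact PolyTime.optElim (f := fun _ : List Bool => false)
      (g := fun z : ℚ × List Bool => c z.1) ht (PolyTime.const false) (hc.comp hz.fst)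
  · show Cut δ w ↔ _
    beta_reduce
    unfold Cut
    rw [encRat_eq]
    constructor
    · rintro ⟨q, hq, h⟩
      rw [(e _ _).mpr hq, Option.elim_some]
      exact (hs q).mpr h
    · intro h
      cases ht : t w with
      | none => rw [ht] at h; exact absurd h (by simp)
      | some q =>
        rw [ht, Option.elim_some] at h
        exact ⟨q, (e _ _).mp ht, (hs q).mp h⟩

theorem part_hard {δ : ℝ} (h0 : 0 < δ) (h1 : δ < 1 / 2)
    (h : NPHard (id : List Bool → List Bool) (Hped δ)) : Pool.Agent.H83.TK.PeqNP := by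
  obtain ⟨τ, hτ, h2, h3⟩ := exists_thrS
  exact peqnp_of_hard hτ (fun w => hped_iff_thrS h2 h3 h0 h1 w) h

theorem part_uniform : Pool.Agent.H83.TK.InP (id : List Bool → List Bool)
    {w | ∃ (δ : ℚ) (Γ : Drawing), bitPair (encRat δ) (encDrawing Γ) = w ∧ 0 < δ ∧ δ < 1 / 2 ∧
      AdmitsHPED (δ : ℝ) Γ} := by
  rw [Pool.Agent.H83.TK.inP_iff]
  obtain ⟨t, ht, e⟩ := exists_parse (dec_prod dec_rat dec_raw)
  have hz : PolyTime (fun z : (ℚ × Raw) × List Bool => z) := PolyTime.id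
  refine ⟨fun w => (t w).elim false (fun x => (decide (0 < x.1) && decide (x.1 < 1 / 2)) &&
    (validRaw x.2 && decide (x.1 < thrRaw x.2))), ?_, fun w => ?_⟩
  · exact PolyTime.optElim (f := fun _ : List Bool => false)
      (g := fun z : (ℚ × Raw) × List Bool => (decide (0 < z.1.1) && decide (z.1.1 < 1 / 2)) &&
        (validRaw z.1.2 && decide (z.1.1 < thrRaw z.1.2))) ht (PolyTime.const false)
      (((PolyTime.ratLt (PolyTime.const 0) hz.fst.fst).and
        (PolyTime.ratLt hz.fst.fst (PolyTime.const _))).and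
        ((polyTime_validRaw.comp hz.fst.snd).and
          (PolyTime.ratLt hz.fst.fst (polyTime_thrRaw.comp hz.fst.snd))))
  · show (∃ (δ : ℚ) (Γ : Drawing), bitPair (encRat δ) (encDrawing Γ) = w ∧ 0 < δ ∧ δ < 1 / 2 ∧
      AdmitsHPED (δ : ℝ) Γ) ↔ _
    beta_reduce
    have henc : ∀ (q : ℚ) (Γ : Drawing), bitPair (encRat q) (encDrawing Γ) =
        enc (q, rawOf Γ) := by
      intro q Γ
      rw [encRat_eq, encDrawing_eq]
      rfl
    constructor
    · rintro ⟨q, Γ, hw, h0, h1, h⟩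
      rw [henc] at hw
      rw [(e _ _).mpr hw, Option.elim_some]
      have r0 : (0 : ℝ) < (q : ℝ) := by exact_mod_cast h0
      have r1 : (q : ℝ) < 1 / 2 := by
        have : (q : ℝ) < ((1 / 2 : ℚ) : ℝ) := by exact_mod_cast h1
        push_cast at this
        exact this
      have h2 : q < thr Γ := by exact_mod_cast (thr_iff r0 r1 Γ).mp h
      simp only [Bool.and_eq_true, decide_eq_true_eq]
      exact ⟨⟨h0, h1⟩, (validRaw_iff _).mpr ⟨Γ, rfl⟩, h2⟩
    · intro h
      cases ht : t w with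
      | none => rw [ht] at h; exact absurd h (by simp)
      | some x =>
        rw [ht, Option.elim_some] at h
        simp only [Bool.and_eq_true, decide_eq_true_eq] at h
        obtain ⟨⟨h0, h1⟩, h2, h3⟩ := h
        obtain ⟨Γ, hΓ⟩ := (validRaw_iff _).mp h2
        have r0 : (0 : ℝ) < (x.1 : ℝ) := by exact_mod_cast h0
        have r1 : (x.1 : ℝ) < 1 / 2 := by
          have : (x.1 : ℝ) < ((1 / 2 : ℚ) : ℝ) := by exact_mod_cast h1
          push_cast at this
          exact this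
        refine ⟨x.1, Γ, ?_, h0, h1, (thr_iff r0 r1 Γ).mpr ?_⟩
        · rw [henc, hΓ]
          exact (e _ _).mp ht
        · rw [← hΓ] at h3
          exact_mod_cast h3

end Pool.Agent.H46.HP
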