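import Pool.Agent.H46.HP.Thr

set_option autoImplicit false

/-!
# A drawing that admits a `δ`-HPED if and only if `δ < q`
-/

namespace Pool.Agent.H46.HP

open Pool.Agent.H80.Poly Pool.Agent.H30.Hped Function

/-- the vertices of the drawing, `s = q / 2` -/
def gp (s : ℚ) : List (ℚ × ℚ) :=
  [(0, 0), (1, 0), (2 * (s * s), -s), (2 * s + 2 * (s * s), 1 - s), (2 * s, -s), (2 * s, 1 - s),
    (1 - 2 * (s * s), s), (1 - 2 * s - 2 * (s * s), s - 1), (1 - 2 * s, s), (1 - 2 * s, s - 1)]

/-- the edges of the drawing -/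
def ge : List (ℕ × ℕ) := [(0, 1), (2, 3), (4, 5), (6, 7), (8, 9)]

/-- first coordinates -/
def gx (s : ℝ) : ℕ → ℝ
  | 0 => 0
  | 1 => 1
  | 2 => 2 * (s * s)
  | 3 => 2 * s + 2 * (s * s)
  | 4 => 2 * s
  | 5 => 2 * s
  | 6 => 1 - 2 * (s * s)
  | 7 => 1 - 2 * s - 2 * (s * s)
  | 8 => 1 - 2 * s
  | 9 => 1 - 2 * s
  | _ => 0

/-- second coordinates -/
def gy (s : ℝ) : ℕ → ℝ
  | 0 => 0
  | 1 => 0
  | 2 => -s
  | 3 => 1 - s
  | 4 => -s
  | 5 => 1 - s
  | 6 => s
  | 7 => s - 1
  | 8 => s
  | 9 => s - 1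
  | _ => 0

lemma gpos (s : ℚ) (k : ℕ) (hk : k < 10) : pos (gp s) k 0 = gx s k ∧ pos (gp s) k 1 = gy s k := by
  interval_cases k <;> simp [pos, gp, gx, gy]

lemma gp_nodup {s : ℚ} (h0 : 0 < s) (h1 : s < 1 / 4) : (gp s).Nodup := by
  have h2 : 0 < s * s := mul_pos h0 h0
  have h3 : s * s < s := by nlinarith
  unfold gp
  simp only [List.nodup_cons, List.mem_cons, Prod.mk.injEq, List.not_mem_nil, or_false,
    not_or, not_and_or, List.nodup_nil, not_false_eq_true, and_true]
  refine ⟨⟨?_, ?_, ?_, ?_, ?_, ?_, ?_, ?_, ?_⟩, ⟨?_, ?_, ?_, ?_, ?_, ?_, ?_, ?_⟩,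
    ⟨?_, ?_, ?_, ?_, ?_, ?_, ?_⟩, ⟨?_, ?_, ?_, ?_, ?_, ?_⟩, ⟨?_, ?_, ?_, ?_, ?_⟩,
    ⟨?_, ?_, ?_, ?_⟩, ⟨?_, ?_, ?_⟩, ⟨?_, ?_⟩, ?_⟩ <;>
  first
  | (right; intro h; linarith)
  | (intro h; linarith)

/-- an equation between points, in coordinates -/
lemma seg_coord {s : ℚ} {k a b : ℕ} (hk : k < 10) (ha : a < 10) (hb : b < 10) {t : ℝ}
    (h : pos (gp s) k = pos (gp s) a + t • (pos (gp s) b - pos (gp s) a)) :
    gx s k = gx s a + t * (gx s b - gx s a) ∧ gy s k = gy s a + t * (gy s b - gy s a) := by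
  have e0 := congrFun (congrArg (fun p : Plane => (p : Fin 2 → ℝ)) h) 0
  have e1 := congrFun (congrArg (fun p : Plane => (p : Fin 2 → ℝ)) h) 1
  simp only [PiLp.add_apply, PiLp.smul_apply, PiLp.sub_apply, smul_eq_mul, (gpos s k hk).1,
    (gpos s k hk).2, (gpos s a ha).1, (gpos s a ha).2, (gpos s b hb).1, (gpos s b hb).2] at e0 e1
  exact ⟨e0, e1⟩

lemma gp_noPass {s : ℚ} (h0 : 0 < s) (h1 : s < 1 / 4) : ∀ e ∈ ge, ∀ k < (gp s).length,
    pos (gp s) k ∈ segment ℝ (pos (gp s) e.1) (pos (gp s) e.2) → k = e.1 ∨ k = e.2 := by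
  intro e he k hk hm
  have hk' : k < 10 := hk
  obtain ⟨t, ht0, ht1, hx⟩ := mem_seg.mp hm
  have r0 : (0 : ℝ) < s := by exact_mod_cast h0
  have r1 : (s : ℝ) < 1 / 4 := by
    have : ((s : ℚ) : ℝ) < ((1 / 4 : ℚ) : ℝ) := by exact_mod_cast h1
    push_cast at this
    linarith
  generalize hr : (s : ℝ) = r at *
  have r2 : 0 < r * r := mul_pos r0 r0
  have r3 : r * r < r / 4 := by nlinarith
  unfold ge at he
  simp only [List.mem_cons, List.not_mem_nil, or_false] at he
  rcases he with rfl | rfl | rfl | rfl | rfl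
  · obtain ⟨e0, e1⟩ := seg_coord hk' (by norm_num) (by norm_num) hx
    rw [hr] at e0 e1
    interval_cases k
    · left; rfl
    · right; rfl
    all_goals
      exfalso
      simp only [gx, gy] at e0 e1
      linarith
  · obtain ⟨e0, e1⟩ := seg_coord hk' (by norm_num) (by norm_num) hx
    rw [hr] at e0 e1
    have ht : t = gy r k + r := by
      simp only [gy] at e1 ⊢
      linarith
    rw [ht] at e0 ht0 ht1
    interval_cases k
    · exfalso; simp only [gx, gy] at e0 ht0 ht1; nlinarith
    · exfalso; simp only [gx, gy] at e0 ht0 ht1; nlinarith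
    · left; rfl
    · right; rfl
    all_goals
      exfalso
      simp only [gx, gy] at e0 ht0 ht1
      nlinarith
  · obtain ⟨e0, e1⟩ := seg_coord hk' (by norm_num) (by norm_num) hx
    rw [hr] at e0 e1
    have ht : t = gy r k + r := by
      simp only [gy] at e1 ⊢
      linarith
    rw [ht] at e0 ht0 ht1
    interval_cases k
    · exfalso; simp only [gx, gy] at e0 ht0 ht1; nlinarith
    · exfalso; simp only [gx, gy] at e0 ht0 ht1; nlinarith
    · exfalso; simp only [gx, gy] at e0 ht0 ht1; nlinarith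
    · exfalso; simp only [gx, gy] at e0 ht0 ht1; nlinarith
    · left; rfl
    · right; rfl
    all_goals
      exfalso
      simp only [gx, gy] at e0 ht0 ht1
      nlinarith
  · obtain ⟨e0, e1⟩ := seg_coord hk' (by norm_num) (by norm_num) hx
    rw [hr] at e0 e1
    have ht : t = r - gy r k := by
      simp only [gy] at e1 ⊢
      linarith
    rw [ht] at e0 ht0 ht1
    interval_cases k
    · exfalso; simp only [gx, gy] at e0 ht0 ht1; nlinarith
    · exfalso; simp only [gx, gy] at e0 ht0 ht1; nlinarith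
    · exfalso; simp only [gx, gy] at e0 ht0 ht1; nlinarith
    · exfalso; simp only [gx, gy] at e0 ht0 ht1; nlinarith
    · exfalso; simp only [gx, gy] at e0 ht0 ht1; nlinarith
    · exfalso; simp only [gx, gy] at e0 ht0 ht1; nlinarith
    · left; rfl
    · right; rfl
    all_goals
      exfalso
      simp only [gx, gy] at e0 ht0 ht1
      nlinarith
  · obtain ⟨e0, e1⟩ := seg_coord hk' (by norm_num) (by norm_num) hx
    rw [hr] at e0 e1
    have ht : t = r - gy r k := by
      simp only [gy] at e1 ⊢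
      linarith
    rw [ht] at e0 ht0 ht1
    interval_cases k
    · exfalso; simp only [gx, gy] at e0 ht0 ht1; nlinarith
    · exfalso; simp only [gx, gy] at e0 ht0 ht1; nlinarith
    · exfalso; simp only [gx, gy] at e0 ht0 ht1; nlinarith
    · exfalso; simp only [gx, gy] at e0 ht0 ht1; nlinarith
    · exfalso; simp only [gx, gy] at e0 ht0 ht1; nlinarith
    · exfalso; simp only [gx, gy] at e0 ht0 ht1; nlinarith
    · exfalso; simp only [gx, gy] at e0 ht0 ht1; nlinarith
    · exfalso; simp only [gx, gy] at e0 ht0 ht1; nlinarith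
    · left; rfl
    · right; rfl

/-- the drawing with parameter `s` -/
def gad (s : ℚ) (h0 : 0 < s) (h1 : s < 1 / 4) : Drawing where
  pts := gp s
  edges := ge
  distinct := gp_nodup h0 h1
  simple := by decide
  valid := by
    intro e he
    have hl : (gp s).length = 10 := rfl
    rw [hl]
    revert e he
    decide
  noPass := gp_noPass h0 h1

/-! ### the crossings -/

lemma cross_coord {s : ℚ} {a b c d : ℕ} (ha : a < 10) (hb : b < 10) (hc : c < 10) (hd : d < 10)
    {t t' : ℝ} : Cross (pos (gp s) a) (pos (gp s) b) (pos (gp s) c) (pos (gp s) d) t t' ↔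
    ((gx s b - gx s a) * (gy s d - gy s c) - (gy s b - gy s a) * (gx s d - gx s c) ≠ 0 ∧
      0 < t ∧ t < 1 ∧ 0 < t' ∧ t' < 1 ∧
      gx s a + t * (gx s b - gx s a) = gx s c + t' * (gx s d - gx s c) ∧
      gy s a + t * (gy s b - gy s a) = gy s c + t' * (gy s d - gy s c)) := by
  unfold Cross det
  rw [(gpos s a ha).1, (gpos s a ha).2, (gpos s b hb).1, (gpos s b hb).2, (gpos s c hc).1,
    (gpos s c hc).2, (gpos s d hd).1, (gpos s d hd).2]
  refine and_congr_right (fun _ => and_congr_right (fun _ => and_congr_right (fun _ =>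
    and_congr_right (fun _ => and_congr_right (fun _ => ?_)))))
  constructor
  · intro h
    have e0 := congrFun (congrArg (fun p : Plane => (p : Fin 2 → ℝ)) h) 0
    have e1 := congrFun (congrArg (fun p : Plane => (p : Fin 2 → ℝ)) h) 1
    simp only [PiLp.add_apply, PiLp.smul_apply, PiLp.sub_apply, smul_eq_mul, (gpos s a ha).1,
      (gpos s a ha).2, (gpos s b hb).1, (gpos s b hb).2, (gpos s c hc).1,
      (gpos s c hc).2, (gpos s d hd).1, (gpos s d hd).2] at e0 e1
    exact ⟨e0, e1⟩
  · rintro ⟨e0, e1⟩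
    ext i
    fin_cases i
    · simp only [Fin.zero_eta, PiLp.add_apply, PiLp.smul_apply, PiLp.sub_apply, smul_eq_mul,
        (gpos s a ha).1, (gpos s b hb).1, (gpos s c hc).1, (gpos s d hd).1]
      exact e0
    · simp only [Fin.mk_one, PiLp.add_apply, PiLp.smul_apply, PiLp.sub_apply, smul_eq_mul,
        (gpos s a ha).2, (gpos s b hb).2, (gpos s c hc).2, (gpos s d hd).2]
      exact e1

lemma mid_self {δ t : ℝ} (h1 : δ < 1 / 2) (ht0 : 0 < t) (ht1 : t < 1) :
    mid δ (2 * δ * t) t := by
  unfold mid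
  constructor <;> nlinarith

/-- positions of the stubs -/
def ga (δ s : ℝ) (e : ℕ × ℕ) : ℝ :=
  if e = (0, 1) then δ else if e = (2, 3) ∨ e = (6, 7) then 2 * δ * s
    else if e = (4, 5) ∨ e = (8, 9) then 2 * δ * (1 - s) else 0

lemma ga_bd {δ s : ℝ} (h0 : 0 < δ) (hs0 : 0 < s) (hs1 : s < 1) (e : ℕ × ℕ) :
    0 ≤ ga δ s e ∧ ga δ s e ≤ 2 * δ := by
  unfold ga
  split_ifs
  · constructor <;> linarith
  · constructor <;> nlinarith
  · constructor <;> nlinarith
  · constructor <;> linarith

theorem gad_admits {s : ℚ} (hs0 : 0 < s) (hs1 : s < 1 / 4) {δ : ℝ} (h0 : 0 < δ)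
    (h1 : δ < 2 * (s : ℝ)) : AdmitsHPED δ (gad s hs0 hs1) := by
  rw [hped_iff h0]
  have r0 : (0 : ℝ) < s := by exact_mod_cast hs0
  have r1 : (s : ℝ) < 1 / 4 := by
    have : ((s : ℚ) : ℝ) < ((1 / 4 : ℚ) : ℝ) := by exact_mod_cast hs1
    push_cast at this
    linarith
  refine ⟨ga δ s, ga_bd h0 r0 (by linarith), ?_⟩
  have r2 : 0 < (s : ℝ) * s := mul_pos r0 r0
  have r3 : (s : ℝ) * s < s / 4 := by nlinarith
  have v1 : ga δ s (0, 1) = δ := rfl
  have v2 : ga δ s (2, 3) = 2 * δ * s := by simp [ga]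
  have v3 : ga δ s (4, 5) = 2 * δ * (1 - s) := by simp [ga]
  have v4 : ga δ s (6, 7) = 2 * δ * s := by simp [ga]
  have v5 : ga δ s (8, 9) = 2 * δ * (1 - s) := by simp [ga]
  have hd : δ < 1 / 2 := by linarith
  have m1 : mid δ (2 * δ * s) s := mid_self hd r0 (by linarith)
  have m2 : mid δ (2 * δ * (1 - s)) (1 - s) := mid_self hd (by linarith) (by linarith)
  have m3 : mid δ δ (2 * s) := ⟨h1, by linarith⟩
  have m4 : mid δ δ (1 - 2 * s) := ⟨by linarith, by linarith⟩
  -- the crossings of two edges, the first one before the second one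
  have key : ∀ e ∈ ge, ∀ e' ∈ ge, e.1 < e'.1 → ∀ t t',
      Cross (pos (gp s) e.1) (pos (gp s) e.2) (pos (gp s) e'.1) (pos (gp s) e'.2) t t' →
      mid δ (ga δ s e) t ∨ mid δ (ga δ s e') t' := by
    intro e he e' he' hlt t t' hcr
    unfold ge at he he'
    simp only [List.mem_cons, List.not_mem_nil, or_false] at he he'
    rcases he with rfl | rfl | rfl | rfl | rfl <;> rcases he' with rfl | rfl | rfl | rfl | rfl <;>
      first
      | (exfalso; revert hlt; decide)
      | skip
    · -- (0,1), (2,3)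
      obtain ⟨_, a1, a2, a3, a4, a5, a6⟩ := (cross_coord (by norm_num) (by norm_num)
        (by norm_num) (by norm_num)).mp hcr
      simp only [gx, gy] at a5 a6
      have : t' = s := by linarith
      right
      rw [v2, this]
      exact m1
    · -- (0,1), (4,5)
      obtain ⟨_, a1, a2, a3, a4, a5, a6⟩ := (cross_coord (by norm_num) (by norm_num)
        (by norm_num) (by norm_num)).mp hcr
      simp only [gx, gy] at a5 a6
      have : t = 2 * s := by linarith
      left
      rw [v1, this]
      exact m3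
    · -- (0,1), (6,7)
      obtain ⟨_, a1, a2, a3, a4, a5, a6⟩ := (cross_coord (by norm_num) (by norm_num)
        (by norm_num) (by norm_num)).mp hcr
      simp only [gx, gy] at a5 a6
      have : t' = s := by linarith
      right
      rw [v4, this]
      exact m1
    · -- (0,1), (8,9)
      obtain ⟨_, a1, a2, a3, a4, a5, a6⟩ := (cross_coord (by norm_num) (by norm_num)
        (by norm_num) (by norm_num)).mp hcr
      simp only [gx, gy] at a5 a6
      have : t = 1 - 2 * s := by linarith
      left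
      rw [v1, this]
      exact m4
    · -- (2,3), (4,5)
      obtain ⟨_, a1, a2, a3, a4, a5, a6⟩ := (cross_coord (by norm_num) (by norm_num)
        (by norm_num) (by norm_num)).mp hcr
      simp only [gx, gy] at a5 a6
      have h2 : (s : ℝ) * t = s * (1 - s) := by linarith
      have h3 : t = 1 - s := mul_left_cancel₀ r0.ne' h2
      have : t' = 1 - s := by linarith
      right
      rw [v3, this]
      exact m2
    · -- (2,3), (6,7)
      exfalso
      obtain ⟨_, a1, a2, a3, a4, a5, a6⟩ := (cross_coord (by norm_num) (by norm_num)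
        (by norm_num) (by norm_num)).mp hcr
      simp only [gx, gy] at a5 a6
      have : t' = 2 * s - t := by linarith
      rw [this] at a5
      nlinarith
    · -- (2,3), (8,9)
      exfalso
      obtain ⟨_, a1, a2, a3, a4, a5, a6⟩ := (cross_coord (by norm_num) (by norm_num)
        (by norm_num) (by norm_num)).mp hcr
      simp only [gx, gy] at a5 a6
      have : t = 2 * s - t' := by linarith
      rw [this] at a5
      nlinarith [mul_pos r0 a3]
    · -- (4,5), (6,7)
      exfalso
      obtain ⟨_, a1, a2, a3, a4, a5, a6⟩ := (cross_coord (by norm_num) (by norm_num)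
        (by norm_num) (by norm_num)).mp hcr
      simp only [gx, gy] at a5 a6
      have : t' = 2 * s - t := by linarith
      rw [this] at a5
      nlinarith [mul_pos r0 a1]
    · -- (4,5), (8,9)
      exfalso
      obtain ⟨_, a1, a2, a3, a4, a5, a6⟩ := (cross_coord (by norm_num) (by norm_num)
        (by norm_num) (by norm_num)).mp hcr
      simp only [gx, gy] at a5 a6
      linarith
    · -- (6,7), (8,9)
      obtain ⟨_, a1, a2, a3, a4, a5, a6⟩ := (cross_coord (by norm_num) (by norm_num)
        (by norm_num) (by norm_num)).mp hcr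
      simp only [gx, gy] at a5 a6
      have h2 : (s : ℝ) * t = s * (1 - s) := by linarith
      have h3 : t = 1 - s := mul_left_cancel₀ r0.ne' h2
      have : t' = 1 - s := by linarith
      right
      rw [v5, this]
      exact m2
  intro e he e' he' t t' hcr
  rcases lt_trichotomy e.1 e'.1 with h | h | h
  · exact key e he e' he' h t t' hcr
  · exfalso
    have : e = e' := by
      have he2 : e ∈ ge := he
      have he2' : e' ∈ ge := he'
      unfold ge at he2 he2'
      simp only [List.mem_cons, List.not_mem_nil, or_false] at he2 he2'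
      rcases he2 with rfl | rfl | rfl | rfl | rfl <;>
        rcases he2' with rfl | rfl | rfl | rfl | rfl <;>
        first
        | rfl
        | (exfalso; revert h; decide)
    subst this
    obtain ⟨hD, _⟩ := hcr
    apply hD
    unfold det
    ring
  · have hcr' : Cross (pos (gp s) e'.1) (pos (gp s) e'.2) (pos (gp s) e.1) (pos (gp s) e.2)
        t' t := by
      obtain ⟨hD, a1, a2, a3, a4, a5⟩ := hcr
      refine ⟨?_, a3, a4, a1, a2, a5.symm⟩
      intro h5
      apply hD
      unfold det at h5 ⊢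
      have h6 : (gad s hs0 hs1).pts = gp s := rfl
      rw [h6]
      linarith
    exact (key e' he' e he h t' t hcr').symm

theorem lt_of_gad_admits {s : ℚ} (hs0 : 0 < s) (hs1 : s < 1 / 4) {δ : ℝ} (h0 : 0 < δ)
    (h : AdmitsHPED δ (gad s hs0 hs1)) : δ < 2 * (s : ℝ) := by
  rw [hped_iff h0] at h
  obtain ⟨a, ha, hc⟩ := h
  by_contra hlt
  push Not at hlt
  have r0 : (0 : ℝ) < s := by exact_mod_cast hs0
  have r1 : (s : ℝ) < 1 / 4 := by
    have : ((s : ℚ) : ℝ) < ((1 / 4 : ℚ) : ℝ) := by exact_mod_cast hs1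
    push_cast at this
    linarith
  have r2 : 0 < (s : ℝ) * s := mul_pos r0 r0
  have r3 : (s : ℝ) * s < s / 4 := by nlinarith
  have hp : (gad s hs0 hs1).pts = gp s := rfl
  have he : (gad s hs0 hs1).edges = ge := rfl
  rw [hp, he] at hc
  have c1 := hc (0, 1) (by decide) (2, 3) (by decide) (4 * (s * s)) s
    ((cross_coord (by norm_num) (by norm_num) (by norm_num) (by norm_num)).mpr
      ⟨by simp only [gx, gy]; intro h; linarith, by linarith, by linarith, by linarith,
        by linarith, by simp only [gx]; ring, by simp only [gy]; ring⟩)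
  have c2 := hc (0, 1) (by decide) (4, 5) (by decide) (2 * s) s
    ((cross_coord (by norm_num) (by norm_num) (by norm_num) (by norm_num)).mpr
      ⟨by simp only [gx, gy]; intro h; linarith, by linarith, by linarith, by linarith,
        by linarith, by simp only [gx]; ring, by simp only [gy]; ring⟩)
  have c3 := hc (2, 3) (by decide) (4, 5) (by decide) (1 - s) (1 - s)
    ((cross_coord (by norm_num) (by norm_num) (by norm_num) (by norm_num)).mpr
      ⟨by simp only [gx, gy]; intro h; linarith, by linarith, by linarith, by linarith,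
        by linarith, by simp only [gx]; ring, by simp only [gy]⟩)
  have c4 := hc (0, 1) (by decide) (6, 7) (by decide) (1 - 4 * (s * s)) s
    ((cross_coord (by norm_num) (by norm_num) (by norm_num) (by norm_num)).mpr
      ⟨by simp only [gx, gy]; intro h; linarith, by linarith, by linarith, by linarith,
        by linarith, by simp only [gx]; ring, by simp only [gy]; ring⟩)
  have c5 := hc (0, 1) (by decide) (8, 9) (by decide) (1 - 2 * s) s
    ((cross_coord (by norm_num) (by norm_num) (by norm_num) (by norm_num)).mpr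
      ⟨by simp only [gx, gy]; intro h; linarith, by linarith, by linarith, by linarith,
        by linarith, by simp only [gx]; ring, by simp only [gy]; ring⟩)
  have c6 := hc (6, 7) (by decide) (8, 9) (by decide) (1 - s) (1 - s)
    ((cross_coord (by norm_num) (by norm_num) (by norm_num) (by norm_num)).mpr
      ⟨by simp only [gx, gy]; intro h; linarith, by linarith, by linarith, by linarith,
        by linarith, by simp only [gx]; ring, by simp only [gy]⟩)
  unfold mid at c1 c2 c3 c4 c5 c6
  rcases c3 with ⟨x1, x2⟩ | ⟨x1, x2⟩ <;> rcases c6 with ⟨y1, y2⟩ | ⟨y1, y2⟩ <;>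
    rcases c1 with ⟨u1, u2⟩ | ⟨u1, u2⟩ <;> rcases c2 with ⟨v1, v2⟩ | ⟨v1, v2⟩ <;>
    rcases c4 with ⟨w1, w2⟩ | ⟨w1, w2⟩ <;> rcases c5 with ⟨z1, z2⟩ | ⟨z1, z2⟩ <;> linarith

end Pool.Agent.H46.HP
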