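import Pool.Agent.H30.HpedFinal

set_option autoImplicit false

/-!
# Greatest common divisors and arithmetic of rational numbers in polynomial time
-/

namespace Pool.Agent.H46.HP

open Pool.Agent.H80.Poly Pool.Agent.H30.Hped Function

/-- one step of the algorithm of Euclid -/
def eucl (x : ℕ × ℕ) : ℕ × ℕ := if x.2 = 0 then x else (x.2, x.1 % x.2)

lemma polyTime_eucl : PolyTime eucl := by
  have hx : PolyTime (fun x : ℕ × ℕ => x) := PolyTime.id
  exact PolyTime.ite (PolyTime.eq hx.snd (PolyTime.const 0)) hx (hx.snd.pair (hx.fst.mod hx.snd))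

lemma gcd_eucl (x : ℕ × ℕ) : Nat.gcd (eucl x).1 (eucl x).2 = Nat.gcd x.1 x.2 := by
  unfold eucl
  split_ifs with h
  · rfl
  · simp only
    rw [Nat.gcd_comm x.2, ← Nat.gcd_rec, Nat.gcd_comm]

lemma eucl_le {x : ℕ × ℕ} {B : ℕ} (h1 : x.1 ≤ B) (h2 : x.2 ≤ B) :
    (eucl x).1 ≤ B ∧ (eucl x).2 ≤ B := by
  unfold eucl
  split_ifs with h
  · exact ⟨h1, h2⟩
  · exact ⟨h2, (Nat.mod_lt _ (by omega)).le.trans h2⟩

lemma eucl_iter_le {x : ℕ × ℕ} {B : ℕ} (h1 : x.1 ≤ B) (h2 : x.2 ≤ B) (i : ℕ) :
    (eucl^[i] x).1 ≤ B ∧ (eucl^[i] x).2 ≤ B := by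
  induction i with
  | zero => exact ⟨h1, h2⟩
  | succ i ih =>
    rw [iterate_succ_apply']
    exact eucl_le ih.1 ih.2

lemma gcd_iter (x : ℕ × ℕ) (i : ℕ) :
    Nat.gcd (eucl^[i] x).1 (eucl^[i] x).2 = Nat.gcd x.1 x.2 := by
  induction i with
  | zero => rfl
  | succ i ih => rw [iterate_succ_apply', gcd_eucl, ih]

lemma eucl_zero (a : ℕ) (i : ℕ) : eucl^[i] (a, 0) = (a, 0) := by
  induction i with
  | zero => rfl
  | succ i ih => rw [iterate_succ_apply', ih]; rfl

lemma eucl_done : ∀ (n a b : ℕ), b ≤ a → a * b < 2 ^ n → (eucl^[n] (a, b)).2 = 0 := by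
  intro n
  induction n with
  | zero =>
    intro a b h1 h2
    rw [pow_zero, Nat.lt_one_iff, mul_eq_zero] at h2
    show b = 0
    omega
  | succ n ih =>
    intro a b h1 h2
    by_cases hb : b = 0
    · subst hb
      rw [eucl_zero]
    · have hb' : 0 < b := Nat.pos_of_ne_zero hb
      rw [iterate_succ_apply]
      have he : eucl (a, b) = (b, a % b) := by
        unfold eucl
        rw [if_neg hb]
      rw [he]
      have h3 := Nat.mod_lt a hb'
      apply ih b (a % b) h3.le
      have h4 : b + a % b ≤ a := by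
        have h5 := Nat.div_add_mod a b
        have h6 : 1 ≤ a / b := (Nat.one_le_div_iff hb').2 h1
        have h7 : b * 1 ≤ b * (a / b) := Nat.mul_le_mul_left _ h6
        omega
      have h8 : 2 * (a % b) ≤ a := by omega
      have h9 : b * (2 * (a % b)) ≤ b * a := Nat.mul_le_mul_left _ h8
      have h10 : b * a < 2 ^ n * 2 := by rw [mul_comm]; rwa [pow_succ] at h2
      have h11 : b * (2 * (a % b)) = (b * (a % b)) * 2 := by ring
      rw [h11] at h9
      exact lt_of_mul_lt_mul_right (h9.trans_lt h10) (by norm_num)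

lemma eucl_done' (n a b : ℕ) (h : size a + size b + 1 ≤ n) : (eucl^[n] (a, b)).2 = 0 := by
  have key : ∀ m a b : ℕ, size a + size b ≤ m → b ≤ a → (eucl^[m] (a, b)).2 = 0 := by
    intro m a b hm hab
    apply eucl_done m a b hab
    have h1 := lt_two_pow_size a
    have h2 := lt_two_pow_size b
    calc a * b < 2 ^ size a * 2 ^ size b :=
          Nat.mul_lt_mul_of_lt_of_le h1 h2.le (by positivity)
      _ = 2 ^ (size a + size b) := by rw [pow_add]
      _ ≤ 2 ^ m := Nat.pow_le_pow_right (by norm_num) hm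
  by_cases hab : b ≤ a
  · exact key n a b (by omega) hab
  · obtain ⟨m, rfl⟩ : ∃ m, n = m + 1 := ⟨n - 1, by omega⟩
    rw [iterate_succ_apply]
    have he : eucl (a, b) = (b, a) := by
      unfold eucl
      have hb : b ≠ 0 := by omega
      simp only
      rw [if_neg hb, Nat.mod_eq_of_lt (by omega)]
    rw [he]
    exact key m b a (by omega) (by omega)

/-- the greatest common divisor is computable in polynomial time -/
theorem polyTime_gcd {α : Type} [BEnc α] {f g : α → ℕ} (hf : PolyTime f) (hg : PolyTime g) :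
    PolyTime (fun a => Nat.gcd (f a) (g a)) := by
  have hx : PolyTime (fun x : ℕ × ℕ => x) := PolyTime.id
  have h : PolyTime (fun x : ℕ × ℕ => (eucl^[(enc (toStr (x, x))).length] x).1) := by
    refine PolyTime.fst (PolyTime.iterate (PolyTime.toStr'.comp (hx.pair hx)) hx polyTime_eucl ?_)
    refine ⟨fun n => 2 * n + 1 + n, ((((PB.const 2).mul PB.id)).add (PB.const 1)).add PB.id, ?_⟩
    intro x i _
    obtain ⟨h1, h2⟩ := eucl_iter_le (le_max_left x.1 x.2) (le_max_right x.1 x.2) i
    rw [size_prod]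
    have h3 := size_nat_mono h1
    have h4 := size_nat_mono h2
    have h5 : size (max x.1 x.2) ≤ size x := by
      rw [size_prod]
      rcases le_total x.1 x.2 with h | h
      · rw [max_eq_right h]; omega
      · rw [max_eq_left h]; omega
    show 2 * size (eucl^[i] x).1 + 1 + size (eucl^[i] x).2 ≤ 2 * size x + 1 + size x
    omega
  have h' : PolyTime (fun x : ℕ × ℕ => Nat.gcd x.1 x.2) := by
    refine h.congr (fun x => ?_)
    rw [← gcd_iter x (enc (toStr (x, x))).length]
    have hz : (eucl^[(enc (toStr (x, x))).length] x).2 = 0 := by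
      have hs : size x.1 + size x.2 + 1 ≤ (enc (toStr (x, x))).length := by
        have : (enc (toStr (x, x))).length = size (x, x) := rfl
        rw [this, size_pair, size_prod]
        omega
      exact eucl_done' _ x.1 x.2 hs
    rw [hz, Nat.gcd_zero_right]
  exact h'.comp (hf.pair hg)

/-- reduced fractions -/
def red (x : ℤ × ℕ) : ℤ × ℕ :=
  bif decide (x.2 = 0) then (0, 1) else
  (signed (decide (x.1 < 0)) (x.1.natAbs / Nat.gcd x.2 x.1.natAbs),
    x.2 / Nat.gcd x.2 x.1.natAbs)

lemma red_eq (x : ℤ × ℕ) : red x = (((x.1 : ℚ) / x.2).num, ((x.1 : ℚ) / x.2).den) := by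
  unfold red
  rw [← Rat.mkRat_eq_div, Rat.num_mkRat, Rat.den_mkRat]
  by_cases h : x.2 = 0
  · rw [decide_eq_true h, cond_true, if_pos h, if_pos h]
  · rw [decide_eq_false h, cond_false, if_neg h, if_neg h]
    refine Prod.ext ?_ rfl
    simp only
    set g := Nat.gcd x.2 x.1.natAbs with hg
    have hgd : g ∣ x.1.natAbs := Nat.gcd_dvd_right _ _
    have hg0 : 0 < g := Nat.gcd_pos_of_pos_left _ (Nat.pos_of_ne_zero h)
    obtain ⟨k, hk⟩ := hgd
    have h1 : x.1.natAbs / g = k := by rw [hk]; exact Nat.mul_div_cancel_left _ hg0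
    rw [h1]
    unfold signed
    by_cases hn : x.1 < 0
    · rw [decide_eq_true hn, cond_true]
      have h2 : x.1 = (g : ℤ) * (-(k : ℤ)) := by
        have : ((x.1.natAbs : ℕ) : ℤ) = (g : ℤ) * k := by rw [hk]; push_cast; ring
        have h3 : ((x.1.natAbs : ℕ) : ℤ) = - x.1 := by omega
        rw [h3] at this
        rw [mul_neg, ← this]; ring
      rw [h2]
      exact (Int.mul_ediv_cancel_left _ (by exact_mod_cast hg0.ne')).symm
    · rw [decide_eq_false hn, cond_false]
      have h2 : x.1 = (g : ℤ) * (k : ℤ) := by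
        have : ((x.1.natAbs : ℕ) : ℤ) = (g : ℤ) * k := by rw [hk]; push_cast; ring
        have h3 : ((x.1.natAbs : ℕ) : ℤ) = x.1 := by omega
        rw [h3] at this
        exact this
      rw [h2]
      exact (Int.mul_ediv_cancel_left _ (by exact_mod_cast hg0.ne')).symm

lemma polyTime_red {α : Type} [BEnc α] {f : α → ℤ × ℕ} (hf : PolyTime f) :
    PolyTime (fun a => red (f a)) := by
  have hg := polyTime_gcd hf.snd hf.fst.natAbs
  exact PolyTime.cond (PolyTime.eq hf.snd (PolyTime.const 0)) (PolyTime.const (0, 1))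
    ((PolyTime.signed hf.fst.isNeg (hf.fst.natAbs.div hg)).pair (hf.snd.div hg))

/-! ### rational numbers -/

variable {α : Type} [BEnc α]

lemma PolyTime.ratMk {f : α → ℤ} {g : α → ℕ} (hf : PolyTime f) (hg : PolyTime g) :
    PolyTime (fun a => (f a : ℚ) / (g a : ℚ)) := by
  refine (polyTime_red (hf.pair hg)).transfer (fun a => ?_)
  rw [red_eq]
  rfl

lemma PolyTime.ratNum {f : α → ℚ} (hf : PolyTime f) : PolyTime (fun a => (f a).num) :=
  (polyTime_ratPair.comp hf).fst

lemma PolyTime.ratDen {f : α → ℚ} (hf : PolyTime f) : PolyTime (fun a => (f a).den) :=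
  (polyTime_ratPair.comp hf).snd

lemma PolyTime.ratAdd {f g : α → ℚ} (hf : PolyTime f) (hg : PolyTime g) :
    PolyTime (fun a => f a + g a) := by
  refine (PolyTime.ratMk (((PolyTime.ratNum hf).intMul (PolyTime.ratDen hg).natCast).intAdd
    ((PolyTime.ratNum hg).intMul (PolyTime.ratDen hf).natCast))
    ((PolyTime.ratDen hf).mul (PolyTime.ratDen hg))).congr (fun a => ?_)
  have h1 : ((f a).den : ℚ) ≠ 0 := by exact_mod_cast (f a).den_ne_zero
  have h2 : ((g a).den : ℚ) ≠ 0 := by exact_mod_cast (g a).den_ne_zero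
  conv_rhs => rw [← Rat.num_div_den (f a), ← Rat.num_div_den (g a)]
  push_cast
  field_simp

lemma PolyTime.ratNeg {f : α → ℚ} (hf : PolyTime f) : PolyTime (fun a => - f a) := by
  refine (PolyTime.ratMk (PolyTime.ratNum hf).intNeg (PolyTime.ratDen hf)).congr (fun a => ?_)
  conv_rhs => rw [← Rat.num_div_den (f a)]
  push_cast
  ring

lemma PolyTime.ratSub {f g : α → ℚ} (hf : PolyTime f) (hg : PolyTime g) :
    PolyTime (fun a => f a - g a) :=
  (PolyTime.ratAdd hf (PolyTime.ratNeg hg)).congr (fun a => by ring)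

lemma PolyTime.ratMul {f g : α → ℚ} (hf : PolyTime f) (hg : PolyTime g) :
    PolyTime (fun a => f a * g a) := by
  refine (PolyTime.ratMk ((PolyTime.ratNum hf).intMul (PolyTime.ratNum hg))
    ((PolyTime.ratDen hf).mul (PolyTime.ratDen hg))).congr (fun a => ?_)
  conv_rhs => rw [← Rat.num_div_den (f a), ← Rat.num_div_den (g a)]
  push_cast
  rw [div_mul_div_comm]

lemma PolyTime.ratLt {f g : α → ℚ} (hf : PolyTime f) (hg : PolyTime g) :
    PolyTime (fun a => decide (f a < g a)) := by
  refine (PolyTime.intLt (PolyTime.const 0) (PolyTime.ratNum (PolyTime.ratSub hg hf))).congr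
    (fun a => ?_)
  rw [decide_eq_decide, Rat.num_pos, sub_pos]

lemma PolyTime.ratLe {f g : α → ℚ} (hf : PolyTime f) (hg : PolyTime g) :
    PolyTime (fun a => decide (f a ≤ g a)) :=
  (PolyTime.ratLt hg hf).not.congr (fun a => by
    rw [Bool.eq_iff_iff]; simp)

end Pool.Agent.H46.HP
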