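import Pool.Agent.H46.HP.Val
import Pool.Agent.H46.HP.Defs
import Pool.Agent.H83.TK.Conv

set_option autoImplicit false

/-!
# The reductions between drawings and cuts
-/

namespace Pool.Agent.H46.HP

open Pool.Agent.H80.Poly Pool.Agent.H30.Hped Function

/-! ### encodings -/

lemma enc_map_rawP (P : List (ℚ × ℚ)) : enc (P.map rawP) = enc P := by
  induction P with
  | nil => rfl
  | cons p P ih =>
    rw [List.map_cons, enc_cons, enc_cons, ih]
    rfl

lemma enc_drawing (Γ : Drawing) : enc Γ = enc (Γ.pts, Γ.edges) := by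
  have h : enc Γ = enc (Γ.pts.map rawP, Γ.edges) := rfl
  rw [h, enc_prod, enc_prod, enc_map_rawP]

lemma enc_drawing_raw (Γ : Drawing) : enc Γ = enc (rawOf Γ) := rfl

lemma enc_drawing_ne_nil (Γ : Drawing) : (enc Γ : List Bool) ≠ [] := by
  rw [enc_drawing, enc_prod]
  exact pr_ne_nil _ _

lemma dec_rat : Dec ℚ := by
  obtain ⟨d, hd, e⟩ := dec_frac
  refine ⟨fun w => ((d w).1 : ℚ) / ((d w).2 : ℚ), PolyTime.ratMk hd.fst hd.snd, fun q => ?_⟩
  beta_reduce
  have h : enc q = enc (q.num, q.den) := rfl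
  rw [h, e]
  exact Rat.num_div_den q

/-! ### from drawings to cuts -/

/-- the threshold of a raw drawing -/
def thrRaw (G : Raw) : ℚ := ((minF (cand G)).1 : ℚ) / ((minF (cand G)).2 : ℚ)

lemma thrRaw_rawOf (Γ : Drawing) : thrRaw (rawOf Γ) = thr Γ := rfl

lemma polyTime_thrRaw : PolyTime thrRaw := by
  have h := polyTime_minF.comp polyTime_cand
  exact PolyTime.ratMk h.fst h.snd

/-- the threshold of a bit string, `0` if it does not encode a drawing -/
theorem exists_thrS : ∃ τ : List Bool → ℚ, PolyTime τ ∧ (∀ Γ : Drawing, τ (enc Γ) = thr Γ) ∧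
    ∀ w, (∀ Γ : Drawing, enc Γ ≠ w) → τ w = 0 := by
  obtain ⟨t, ht, e⟩ := exists_parse dec_raw
  have hz : PolyTime (fun z : Raw × List Bool => z) := PolyTime.id
  refine ⟨fun w => (t w).elim 0 (fun G => bif validRaw G then thrRaw G else 0), ?_, ?_, ?_⟩
  · exact PolyTime.optElim (f := fun _ : List Bool => (0 : ℚ))
      (g := fun z : Raw × List Bool => bif validRaw z.1 then thrRaw z.1 else 0) ht
      (PolyTime.const 0) (PolyTime.cond (polyTime_validRaw.comp hz.fst)
        (polyTime_thrRaw.comp hz.fst) (PolyTime.const 0))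
  · intro Γ
    beta_reduce
    rw [enc_drawing_raw, (e _ _).mpr rfl, Option.elim_some, (validRaw_iff _).mpr ⟨Γ, rfl⟩,
      cond_true]
    rfl
  · intro w hw
    beta_reduce
    cases h : t w with
    | none => rfl
    | some G =>
      rw [Option.elim_some]
      cases hv : validRaw G with
      | false => rfl
      | true =>
        exfalso
        obtain ⟨Γ, hΓ⟩ := (validRaw_iff _).mp hv
        apply hw Γ
        rw [enc_drawing_raw, hΓ]
        exact (e _ _).mp h

lemma hped_iff_thrS {τ : List Bool → ℚ} (h1 : ∀ Γ : Drawing, τ (enc Γ) = thr Γ)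
    (h2 : ∀ w, (∀ Γ : Drawing, enc Γ ≠ w) → τ w = 0) {δ : ℝ} (h0 : 0 < δ) (hδ : δ < 1 / 2)
    (w : List Bool) : Hped δ w ↔ δ < (τ w : ℝ) := by
  unfold Hped
  rw [encDrawing_eq]
  constructor
  · rintro ⟨Γ, rfl, h⟩
    rw [h1]
    exact (thr_iff h0 hδ Γ).mp h
  · intro h
    by_cases hw : ∃ Γ : Drawing, enc Γ = w
    · obtain ⟨Γ, rfl⟩ := hw
      rw [h1] at h
      exact ⟨Γ, rfl, (thr_iff h0 hδ Γ).mpr h⟩
    · push Not at hw
      rw [h2 w hw, Rat.cast_zero] at h
      linarith

/-- the code of a rational number as a list of bits -/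
def codeQ (q : ℚ) : List Bool := strToList (toStr q)

lemma codeQ_eq (q : ℚ) : codeQ q = enc q := rfl

lemma polyTime_codeQ {α : Type} [BEnc α] {f : α → ℚ} (hf : PolyTime f) :
    PolyTime (fun a => codeQ (f a)) :=
  PolyTime.strToList'.comp (PolyTime.toStr'.comp hf)

lemma cut_code (δ : ℝ) (q : ℚ) : Cut δ (codeQ q) ↔ δ < (q : ℝ) := by
  unfold Cut
  rw [encRat_eq]
  constructor
  · rintro ⟨q', h, h'⟩
    have : q' = q := BEnc.enc_inj h
    rw [← this]
    exact h'
  · intro h
    exact ⟨q, rfl, h⟩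

/-! ### from cuts to drawings -/

/-- the empty drawing -/
def emptyD : Drawing where
  pts := []
  edges := []
  distinct := List.nodup_nil
  simple := List.nodup_nil
  valid := by intro e he; exact absurd he List.not_mem_nil
  noPass := by intro e he; exact absurd he List.not_mem_nil

lemma admits_empty (δ : ℝ) : AdmitsHPED δ emptyD := by
  refine ⟨fun _ => 0, fun _ => 0, ?_, ?_⟩
  · intro e he
    exact absurd he List.not_mem_nil
  · intro e he
    exact absurd he List.not_mem_nil

/-- the drawing of a positive rational number -/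
def gadQ (q : ℚ) : Drawing :=
  if h : 0 < q * (1 / 2) ∧ q * (1 / 2) < 1 / 4 then gad (q * (1 / 2)) h.1 h.2 else emptyD

theorem gadQ_iff {q : ℚ} (hq : 0 < q) {δ : ℝ} (h0 : 0 < δ) (h1 : δ < 1 / 2) :
    AdmitsHPED δ (gadQ q) ↔ δ < (q : ℝ) := by
  unfold gadQ
  have e : 2 * ((q * (1 / 2) : ℚ) : ℝ) = (q : ℝ) := by push_cast; ring
  split_ifs with h
  · rw [← e]
    exact ⟨lt_of_gad_admits h.1 h.2 h0, gad_admits h.1 h.2 h0⟩
  · have h2 : 1 / 2 ≤ q := by
      by_contra hcon
      push Not at hcon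
      exact h ⟨by linarith, by linarith⟩
    have h3 : ((1 / 2 : ℚ) : ℝ) ≤ (q : ℝ) := by exact_mod_cast h2
    push_cast at h3
    exact ⟨fun _ => by linarith, fun _ => admits_empty δ⟩

lemma polyTime_gadQ : PolyTime gadQ := by
  have hq : PolyTime (fun q : ℚ => q) := PolyTime.id
  have hs : PolyTime (fun q : ℚ => q * (1 / 2)) := PolyTime.ratMul hq (PolyTime.const _)
  have c0 : PolyTime (fun _ : ℚ => (0 : ℚ)) := PolyTime.const _
  have c1 : PolyTime (fun _ : ℚ => (1 : ℚ)) := PolyTime.const _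
  have c2 : PolyTime (fun _ : ℚ => (2 : ℚ)) := PolyTime.const _
  have h2s := PolyTime.ratMul c2 hs
  have h2ss := PolyTime.ratMul c2 (PolyTime.ratMul hs hs)
  have hns := PolyTime.ratNeg hs
  have h1s := PolyTime.ratSub c1 hs
  have hs1 := PolyTime.ratSub hs c1
  have h12 := PolyTime.ratSub c1 h2s
  have hgp : PolyTime (fun q : ℚ => gp (q * (1 / 2))) :=
    (c0.pair c0).cons ((c1.pair c0).cons ((h2ss.pair hns).cons
      (((PolyTime.ratAdd h2s h2ss).pair h1s).cons ((h2s.pair hns).cons ((h2s.pair h1s).cons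
      (((PolyTime.ratSub c1 h2ss).pair hs).cons (((PolyTime.ratSub h12 h2ss).pair hs1).cons
      ((h12.pair hs).cons ((h12.pair hs1).cons (PolyTime.const ([] : List (ℚ × ℚ))))))))))))
  have hc : PolyTime (fun q : ℚ => decide (0 < q * (1 / 2)) && decide (q * (1 / 2) < 1 / 4)) :=
    (PolyTime.ratLt c0 hs).and (PolyTime.ratLt hs (PolyTime.const _))
  have h := PolyTime.cond hc (hgp.pair (PolyTime.const ge))
    (PolyTime.const (([] : List (ℚ × ℚ)), ([] : List (ℕ × ℕ))))
  refine h.transfer (fun q => ?_)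
  rw [enc_drawing]
  unfold gadQ
  split_ifs with hq
  · rw [decide_eq_true hq.1, decide_eq_true hq.2]
    rfl
  · have : (decide (0 < q * (1 / 2)) && decide (q * (1 / 2) < 1 / 4)) = false := by
      rw [Bool.eq_false_iff]
      intro h'
      rw [Bool.and_eq_true, decide_eq_true_eq, decide_eq_true_eq] at h'
      exact hq h'
    rw [this]
    rfl

/-- the map from codes of rational numbers to codes of drawings -/
theorem exists_gadS : ∃ g : List Bool → List Bool, PolyTime g ∧
    ∀ δ : ℝ, 0 < δ → δ < 1 / 2 → ∀ w, Cut δ w ↔ Hped δ (g w) := by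
  obtain ⟨t, ht, e⟩ := exists_parse dec_rat
  have hz : PolyTime (fun z : ℚ × List Bool => z) := PolyTime.id
  refine ⟨fun w => (t w).elim [] (fun q => bif decide (0 < q) then strToList (toStr (gadQ q))
    else []), ?_, ?_⟩
  · exact PolyTime.optElim (f := fun _ : List Bool => ([] : List Bool))
      (g := fun z : ℚ × List Bool => bif decide (0 < z.1) then strToList (toStr (gadQ z.1))
        else []) ht (PolyTime.const [])
      (PolyTime.cond (PolyTime.ratLt (PolyTime.const 0) hz.fst)
        (PolyTime.strToList'.comp (PolyTime.toStr'.comp (polyTime_gadQ.comp hz.fst)))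
        (PolyTime.const []))
  · intro δ h0 h1 w
    beta_reduce
    unfold Cut Hped
    rw [encDrawing_eq, encRat_eq]
    constructor
    · rintro ⟨q, hq, h⟩
      have hq0 : 0 < q := by
        have : (0 : ℝ) < (q : ℝ) := h0.trans h
        exact_mod_cast this
      rw [(e _ _).mpr hq, Option.elim_some, decide_eq_true hq0, cond_true]
      exact ⟨gadQ q, rfl, (gadQ_iff hq0 h0 h1).mpr h⟩
    · rintro ⟨Γ, hΓ, h⟩
      cases ht : t w with
      | none =>
        rw [ht, Option.elim_none] at hΓ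
        exact absurd hΓ (enc_drawing_ne_nil Γ)
      | some q =>
        rw [ht, Option.elim_some] at hΓ
        by_cases hq0 : 0 < q
        · rw [decide_eq_true hq0, cond_true] at hΓ
          have hΓ' : Γ = gadQ q := BEnc.enc_inj hΓ
          rw [hΓ'] at h
          exact ⟨q, (e _ _).mp ht, (gadQ_iff hq0 h0 h1).mp h⟩
        · rw [decide_eq_false hq0, cond_false] at hΓ
          exact absurd hΓ (enc_drawing_ne_nil Γ)

end Pool.Agent.H46.HP
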