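import Pool.Agent.H46.HP.Maps

set_option autoImplicit false

/-!
# A set with a selector of this kind is not NP-hard unless P = NP
-/

namespace Pool.Agent.H46.HP

open Pool.Agent.H80.Poly Pool.Agent.H30.Hped Pool.Agent.H83.TK Pool.Agent.H72.NP Function

/-- the longer prefix with the larger value -/
def ext (τ : List Bool → ℚ) (x u : List Bool) : List Bool :=
  bif decide (τ (pr x (u ++ [false])) < τ (pr x (u ++ [true]))) then u ++ [true] else u ++ [false]

/-- the prefixes computed from the values -/
def pre (τ : List Bool → ℚ) (x : List Bool) : ℕ → List Bool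
  | 0 => []
  | j + 1 => ext τ x (pre τ x j)

/-- one step of the search: the prefix, and whether a witness was found -/
def srch (b : List Bool × List Bool → Bool) (τ : List Bool → ℚ) (x : List Bool)
    (s : List Bool × Bool) : List Bool × Bool := (ext τ x s.1, s.2 || b (x, s.1))

lemma length_pre (τ : List Bool → ℚ) (x : List Bool) (j : ℕ) : (pre τ x j).length = j := by
  induction j with
  | zero => rfl
  | succ j ih =>
    unfold pre ext
    cases decide (τ (pr x (pre τ x j ++ [false])) < τ (pr x (pre τ x j ++ [true]))) <;> simp [ih]

lemma srch_iter (b : List Bool × List Bool → Bool) (τ : List Bool → ℚ) (x : List Bool) (n : ℕ) :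
    (List.replicate n ()).foldl (fun s _ => srch b τ x s) (([] : List Bool), false) =
      (pre τ x n, (List.range n).any (fun j => b (x, pre τ x j))) := by
  induction n with
  | zero => rfl
  | succ n ih =>
    rw [List.replicate_succ', List.foldl_append, ih, List.range_succ, List.any_append]
    simp [srch, pre]

/-- the prefix language of a verifier -/
def PreL (b : List Bool × List Bool → Bool) (p : Polynomial ℕ) (z : List Bool) : Prop :=
  ∃ v : List Bool, v.length ≤ p.eval (unpair z).1.length ∧ (unpair z).2 <+: v ∧
    b ((unpair z).1, v) = true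

lemma preL_pr (b : List Bool × List Bool → Bool) (p : Polynomial ℕ) (x u : List Bool) :
    PreL b p (pr x u) ↔ ∃ v : List Bool, v.length ≤ p.eval x.length ∧ u <+: v ∧
      b (x, v) = true := by
  unfold PreL
  rw [unpair_pr]

/-- the search finds a witness -/
theorem srch_spec {b : List Bool × List Bool → Bool} {p : Polynomial ℕ} {τ : List Bool → ℚ}
    {δ : ℝ} (hτ : ∀ z, PreL b p z ↔ δ < (τ z : ℝ)) (x : List Bool) :
    (∃ v : List Bool, v.length ≤ p.eval x.length ∧ b (x, v) = true) ↔
      (List.range (p.eval x.length + 1)).any (fun j => b (x, pre τ x j)) = true := by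
  rw [List.any_eq_true]
  constructor
  · rintro ⟨v, hv, hb⟩
    by_contra hcon
    push Not at hcon
    have key : ∀ j ≤ p.eval x.length + 1, PreL b p (pr x (pre τ x j)) := by
      intro j
      induction j with
      | zero =>
        intro _
        rw [preL_pr]
        exact ⟨v, hv, List.nil_prefix, hb⟩
      | succ j ih =>
        intro hj
        have h1 := ih (by omega)
        rw [preL_pr] at h1
        obtain ⟨w, hw1, hw2, hw3⟩ := h1
        have hne : b (x, pre τ x j) ≠ true := hcon j (List.mem_range.mpr (by omega))
        obtain ⟨y, rfl⟩ := hw2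
        cases y with
        | nil =>
          rw [List.append_nil] at hw3
          exact absurd hw3 hne
        | cons c y =>
          have h2 : PreL b p (pr x (pre τ x j ++ [c])) := by
            rw [preL_pr]
            refine ⟨pre τ x j ++ c :: y, hw1, ?_, hw3⟩
            rw [show pre τ x j ++ c :: y = (pre τ x j ++ [c]) ++ y by simp]
            exact List.prefix_append _ _
          have h3 := (hτ _).mp h2
          show PreL b p (pr x (ext τ x (pre τ x j)))
          unfold ext
          by_cases hlt : τ (pr x (pre τ x j ++ [false])) < τ (pr x (pre τ x j ++ [true]))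
          · rw [decide_eq_true hlt, cond_true]
            cases c with
            | true => exact h2
            | false =>
              rw [hτ]
              have : (τ (pr x (pre τ x j ++ [false])) : ℝ) < τ (pr x (pre τ x j ++ [true])) := by
                exact_mod_cast hlt
              linarith
          · rw [decide_eq_false hlt, cond_false]
            cases c with
            | false => exact h2
            | true =>
              rw [hτ]
              have : (τ (pr x (pre τ x j ++ [true])) : ℝ) ≤ τ (pr x (pre τ x j ++ [false])) := by
                exact_mod_cast not_lt.mp hlt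
              linarith
    have h1 := key (p.eval x.length + 1) le_rfl
    rw [preL_pr] at h1
    obtain ⟨w, hw1, hw2, _⟩ := h1
    have h2 := hw2.length_le
    rw [length_pre] at h2
    omega
  · rintro ⟨j, hj, h⟩
    rw [List.mem_range] at hj
    exact ⟨pre τ x j, by rw [length_pre]; omega, h⟩

variable {α : Type} [BEnc α]

lemma polyTime_pr {f g : α → List Bool} (hf : PolyTime f) (hg : PolyTime g) :
    PolyTime (fun a => pr (f a) (g a)) := by
  have h1 : PolyTime (fun a => (listToStr (f a), listToStr (g a))) :=
    (PolyTime.listToStr'.comp hf).pair (PolyTime.listToStr'.comp hg)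
  exact PolyTime.strToList'.comp (PolyTime.toStr'.comp h1)

lemma polyTime_prefix {f g : α → List Bool} (hf : PolyTime f) (hg : PolyTime g) :
    PolyTime (fun a => decide (f a <+: g a)) := by
  refine (PolyTime.eqListBool (hg.take hf.length) hf).congr (fun a => ?_)
  rw [decide_eq_decide, List.prefix_iff_eq_take]
  exact ⟨fun h => h.symm, fun h => h.symm⟩

lemma preL_inNP {b : List Bool × List Bool → Bool} (hb : PolyTime b) (p : Polynomial ℕ) :
    InNP (id : List Bool → List Bool) (PreL b p) := by
  rw [inNP_iff]
  have hx : PolyTime (fun z : List Bool × List Bool => z) := PolyTime.id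
  have hu := polyTime_unpair hx.fst
  refine ⟨fun z => decide (z.2.length ≤ p.eval (unpair z.1).1.length) &&
    (decide ((unpair z.1).2 <+: z.2) && b ((unpair z.1).1, z.2)), p, ?_, ?_⟩
  · exact (PolyTime.le hx.snd.length (PolyTime.natEval p hu.fst.length)).and
      ((polyTime_prefix hu.snd hx.snd).and (hb.comp (hu.fst.pair hx.snd)))
  · intro z
    unfold PreL
    constructor
    · rintro ⟨v, h1, h2, h3⟩
      refine ⟨v, h1.trans (eval_mono p ?_), ?_⟩
      · have := unpair_length z
        omega
      · simp only [Bool.and_eq_true, decide_eq_true_eq]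
        exact ⟨h1, h2, h3⟩
    · rintro ⟨v, _, h⟩
      simp only [Bool.and_eq_true, decide_eq_true_eq] at h
      exact ⟨v, h.1, h.2.1, h.2.2⟩

lemma polyTime_search {b : List Bool × List Bool → Bool} (hb : PolyTime b) {τ : List Bool → ℚ}
    (hτ : PolyTime τ) (p : Polynomial ℕ) :
    PolyTime (fun x : List Bool =>
      (List.range (p.eval x.length + 1)).any (fun j => b (x, pre τ x j))) := by
  have hw : PolyTime (fun w : List Bool × (List Bool × Bool) × Unit => w) := PolyTime.id
  have hF : PolyTime (fun w : List Bool × (List Bool × Bool) × Unit => w.2.1.1 ++ [false]) :=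
    hw.snd.fst.fst.append (PolyTime.const [false])
  have hT : PolyTime (fun w : List Bool × (List Bool × Bool) × Unit => w.2.1.1 ++ [true]) :=
    hw.snd.fst.fst.append (PolyTime.const [true])
  have hstep : PolyTime (fun w : List Bool × (List Bool × Bool) × Unit => srch b τ w.1 w.2.1) :=
    (PolyTime.cond (PolyTime.ratLt (hτ.comp (polyTime_pr hw.fst hF))
      (hτ.comp (polyTime_pr hw.fst hT))) hT hF).pair
      (hw.snd.fst.snd.or (hb.comp (hw.fst.pair hw.snd.fst.fst)))
  have hl : PolyTime (fun x : List Bool => List.replicate (p.eval x.length + 1) ()) := by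
    have h1 : PolyTime (fun x : List Bool => UNat.ofNat (p.eval x.length)) :=
      (PolyTime.unatEval p (PolyTime.lengthU (PolyTime.id (α := List Bool))))
    refine ((PolyTime.const ()).cons h1.unatToUnits).congr (fun x => ?_)
    rw [List.replicate_succ]
  have h1 := PolyTime.foldl_add (α := List Bool) (l := fun x => List.replicate (p.eval x.length + 1)
      ()) (f := fun _ => (([] : List Bool), false))
    (h := fun w : List Bool × (List Bool × Bool) × Unit => srch b τ w.1 w.2.1) hl
    (PolyTime.const _) hstep (by
      refine ⟨fun _ => 6, PB.const 6, ?_⟩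
      rintro x ⟨u, f⟩ y _
      unfold srch ext
      cases decide (τ (pr x (u ++ [false])) < τ (pr x (u ++ [true]))) <;>
        simp only [cond_true, cond_false, size_pair, size_bool, size_append, size_bits,
          List.length_cons, List.length_nil] <;> omega)
  refine h1.snd.congr (fun x => ?_)
  rw [srch_iter]

/-- If the set of the bit strings `w` with `δ < τ w` is NP-hard then P = NP. -/
theorem peqnp_of_hard {P : List Bool → Prop} {τ : List Bool → ℚ} (hτ : PolyTime τ) {δ : ℝ}
    (hP : ∀ w, P w ↔ δ < (τ w : ℝ)) (hH : NPHard (id : List Bool → List Bool) P) : PeqNP := by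
  intro L hL
  rw [inNP_iff] at hL
  obtain ⟨b, p, hb, hLb⟩ := hL
  obtain ⟨g, hg, hgs⟩ := hH _ (preL_inNP hb p)
  rw [polyTimeFun_id_iff] at hg
  rw [inP_iff]
  refine ⟨_, polyTime_search hb (hτ.comp hg) p, fun x => ?_⟩
  show L x ↔ _
  rw [hLb x]
  exact srch_spec (δ := δ) (fun z => by rw [hgs z, hP]) x

end Pool.Agent.H46.HP
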