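import Pool.Agent.H46.HP.Dec

set_option autoImplicit false

/-!
# The threshold of a drawing
-/

namespace Pool.Agent.H46.HP

open Pool.Agent.H80.Poly Pool.Agent.H30.Hped Function

/-! ### monotonicity -/

lemma admits_mono {δ δ' : ℝ} {Γ : Drawing} (h : AdmitsHPED δ Γ) (h0 : 0 < δ') (h1 : δ' ≤ δ) :
    AdmitsHPED δ' Γ := by
  rw [hped_iff (h0.trans_le h1)] at h
  rw [hped_iff h0]
  obtain ⟨a, ha, hc⟩ := h
  refine ⟨fun e => max 0 (a e - 2 * (δ - δ')), fun e => ⟨le_max_left _ _, ?_⟩, ?_⟩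
  · obtain ⟨h2, h3⟩ := ha e
    exact max_le (by linarith) (by linarith)
  · have key : ∀ (e : ℕ × ℕ) (t : ℝ), mid δ (a e) t →
        mid δ' (max 0 (a e - 2 * (δ - δ'))) t := by
      intro e t ht
      obtain ⟨h2, h3⟩ := ha e
      obtain ⟨h4, h5⟩ := ht
      have h6 : max 0 (a e - 2 * (δ - δ')) ≤ a e := max_le h2 (by linarith)
      have h7 := le_max_right (0 : ℝ) (a e - 2 * (δ - δ'))
      exact ⟨by linarith, by linarith⟩
    intro e he e' he' t t' hcr
    rcases hc e he e' he' t t' hcr with h2 | h2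
    · exact Or.inl (key _ _ h2)
    · exact Or.inr (key _ _ h2)

/-! ### small stubs -/

lemma exists_pos_le {ι : Type} (d : ι → ℝ) : ∀ l : List ι, (∀ x ∈ l, 0 < d x) →
    ∃ ε : ℝ, 0 < ε ∧ ∀ x ∈ l, ε ≤ d x := by
  intro l
  induction l with
  | nil => intro _; exact ⟨1, one_pos, fun x hx => absurd hx List.not_mem_nil⟩
  | cons a l ih =>
    intro h
    obtain ⟨ε, h0, h1⟩ := ih (fun x hx => h x (List.mem_cons_of_mem _ hx))
    refine ⟨min ε (d a), lt_min h0 (h a List.mem_cons_self), fun x hx => ?_⟩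
    rcases List.mem_cons.mp hx with rfl | hx
    · exact min_le_right _ _
    · exact (min_le_left _ _).trans (h1 x hx)

lemma exists_small (Γ : Drawing) {δ : ℝ} (hδ : 0 < δ) :
    ∃ δ' : ℝ, 0 < δ' ∧ δ' ≤ δ ∧ AdmitsHPED δ' Γ := by
  have h1 : ∀ x : (ℕ × ℕ) × (ℕ × ℕ), ∃ d : ℝ, 0 < d ∧ ∀ t t',
      Cross (pos Γ.pts x.1.1) (pos Γ.pts x.1.2) (pos Γ.pts x.2.1) (pos Γ.pts x.2.2) t t' →
      d ≤ t ∧ d ≤ 1 - t := by
    intro x
    by_cases hx : ∃ t t', Cross (pos Γ.pts x.1.1) (pos Γ.pts x.1.2) (pos Γ.pts x.2.1)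
        (pos Γ.pts x.2.2) t t'
    · obtain ⟨t, t', h⟩ := hx
      have h' := cross_iff.mp h
      refine ⟨min t (1 - t), lt_min h'.2.1 (by linarith [h'.2.2.1]), fun s s' hs => ?_⟩
      have hs' := cross_iff.mp hs
      have : s = t := by rw [hs'.2.2.2.2.2.1, h'.2.2.2.2.2.1]
      rw [this]
      exact ⟨min_le_left _ _, min_le_right _ _⟩
    · push Not at hx
      exact ⟨1, one_pos, fun t t' h => absurd h (hx t t')⟩
  choose d hd0 hd using h1
  obtain ⟨ε, hε0, hε⟩ := exists_pos_le d (Γ.edges.flatMap (fun e => Γ.edges.map (fun e' => (e, e'))))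
    (fun x _ => hd0 x)
  set δ' := min δ (ε / 2) with hδ'
  have h2 : 0 < δ' := lt_min hδ (by linarith)
  have h3 : δ' ≤ ε / 2 := min_le_right _ _
  refine ⟨δ', h2, min_le_left _ _, ?_⟩
  rw [hped_iff h2]
  refine ⟨fun _ => δ', fun _ => ⟨h2.le, by linarith⟩, ?_⟩
  intro e he e' he' t t' hcr
  left
  have hm : (e, e') ∈ Γ.edges.flatMap (fun e => Γ.edges.map (fun e' => (e, e'))) := by
    rw [List.mem_flatMap]
    exact ⟨e, he, List.mem_map.mpr ⟨e', he', rfl⟩⟩
  have h4 := hε _ hm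
  obtain ⟨h5, h6⟩ := hd (e, e') t t' hcr
  exact ⟨by linarith, by linarith⟩

/-! ### only comparisons matter -/

lemma admits_congr {δ δ' : ℝ} (h0 : 0 < δ) (h0' : 0 < δ') (Γ : Drawing)
    (h : ∀ q ∈ queries (rawOf Γ), ((q.1 : ℝ) / q.2 ≤ δ ↔ (q.1 : ℝ) / q.2 ≤ δ')) :
    AdmitsHPED δ Γ ↔ AdmitsHPED δ' Γ := by
  classical
  rw [← evalT_iff h0 Γ, ← evalT_iff h0' Γ]
  have : (queries (rawOf Γ)).map (fun q => decide ((q.1 : ℝ) / q.2 ≤ δ)) =
      (queries (rawOf Γ)).map (fun q => decide ((q.1 : ℝ) / q.2 ≤ δ')) := by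
    apply List.map_congr_left
    intro q hq
    exact decide_eq_decide.mpr (h q hq)
  rw [this]

lemma cmpQ_spec' {k : ℤ × ℕ} (hk : 0 < k.2) (q : RQ) (hq : 0 < q.2) :
    cmpQ k q = true ↔ 1 - 2 * ((k.1 : ℝ) / k.2) ≤ rv q := by
  unfold cmpQ rv
  rw [decide_eq_true_iff]
  have h1 : (0 : ℝ) < q.2 := by exact_mod_cast hq
  have h2 : (0 : ℝ) < (k.2 : ℝ) := by exact_mod_cast hk
  rw [le_div_iff₀ h1]
  have h4 : (1 - 2 * ((k.1 : ℝ) / k.2)) * q.2 = (((k.2 : ℝ) - 2 * k.1) * q.2) / k.2 := by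
    field_simp
  rw [h4, div_le_iff₀ h2]
  constructor
  · intro h
    have : (((((k.2 : ℤ) - 2 * k.1) * q.2 : ℤ)) : ℝ) ≤ ((q.1 * k.2 : ℤ) : ℝ) := by
      exact_mod_cast h
    push_cast at this
    exact this
  · intro h
    have : (((((k.2 : ℤ) - 2 * k.1) * q.2 : ℤ)) : ℝ) ≤ ((q.1 * k.2 : ℤ) : ℝ) := by
      push_cast; exact h
    exact_mod_cast this

lemma decideK_iff {k : ℤ × ℕ} (hk : 0 < k.2) (hk1 : 0 < k.1) (Γ : Drawing) :
    decideK cmpQ (k, rawOf Γ) = true ↔ AdmitsHPED ((k.1 : ℝ) / k.2) Γ := by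
  rw [decideK_eq]
  refine decideHPED_iff ?_ (cmpQ_spec' hk) Γ
  have h1 : (0 : ℝ) < k.1 := by exact_mod_cast hk1
  have h2 : (0 : ℝ) < k.2 := by exact_mod_cast hk
  positivity

/-! ### the threshold -/

/-- the fractions in `(0, 1/2)` among the queries for which there is no drawing with such stubs -/
def cand (G : Raw) : List (ℤ × ℕ) :=
  (queries G).filter (fun q => (decide (0 < q.1) && decide (2 * q.1 < (q.2 : ℤ))) &&
    !(decideK cmpQ (q, G)))

/-- the smaller one of two fractions -/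
def minStep (m q : ℤ × ℕ) : ℤ × ℕ := bif decide (q.1 * (m.2 : ℤ) < m.1 * (q.2 : ℤ)) then q else m

/-- the least fraction of a list, and of `1/2` -/
def minF (l : List (ℤ × ℕ)) : ℤ × ℕ := l.foldl minStep (1, 2)

/-- the threshold of a drawing -/
def thr (Γ : Drawing) : ℚ :=
  ((minF (cand (rawOf Γ))).1 : ℚ) / ((minF (cand (rawOf Γ))).2 : ℚ)

lemma minF_aux : ∀ (l : List (ℤ × ℕ)) (m : ℤ × ℕ), (∀ q ∈ l, 0 < q.2) → 0 < m.2 →
    l.foldl minStep m ∈ m :: l ∧
    ∀ q ∈ m :: l, ((l.foldl minStep m).1 : ℝ) / (l.foldl minStep m).2 ≤ (q.1 : ℝ) / q.2 := by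
  intro l
  induction l with
  | nil =>
    intro m _ _
    refine ⟨List.mem_cons_self, fun q hq => ?_⟩
    rw [List.mem_singleton] at hq
    rw [hq]
    exact le_rfl
  | cons x l ih =>
    intro m hl hm
    have hx := hl x List.mem_cons_self
    have hl' : ∀ q ∈ l, 0 < q.2 := fun q hq => hl q (List.mem_cons_of_mem _ hq)
    rw [List.foldl_cons]
    have h1 : (0 : ℝ) < m.2 := by exact_mod_cast hm
    have h2 : (0 : ℝ) < x.2 := by exact_mod_cast hx
    by_cases hlt : x.1 * (m.2 : ℤ) < m.1 * (x.2 : ℤ)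
    · have hstep : minStep m x = x := by
        unfold minStep
        rw [decide_eq_true hlt, cond_true]
      rw [hstep]
      obtain ⟨i1, i2⟩ := ih x hl' hx
      refine ⟨List.mem_cons_of_mem _ i1, fun q hq => ?_⟩
      rcases List.mem_cons.mp hq with rfl | hq
      · refine (i2 x List.mem_cons_self).trans ?_
        rw [div_le_div_iff₀ h2 h1]
        exact_mod_cast hlt.le
      · exact i2 q hq
    · have hstep : minStep m x = m := by
        unfold minStep
        rw [decide_eq_false hlt, cond_false]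
      rw [hstep]
      obtain ⟨i1, i2⟩ := ih m hl' hm
      refine ⟨?_, fun q hq => ?_⟩
      · rcases List.mem_cons.mp i1 with h | h
        · rw [h]; exact List.mem_cons_self
        · exact List.mem_cons_of_mem _ (List.mem_cons_of_mem _ h)
      · rcases List.mem_cons.mp hq with rfl | hq
        · exact i2 q List.mem_cons_self
        · rcases List.mem_cons.mp hq with rfl | hq
          · refine (i2 m List.mem_cons_self).trans ?_
            rw [div_le_div_iff₀ h1 h2]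
            exact_mod_cast not_lt.mp hlt
          · exact i2 q (List.mem_cons_of_mem _ hq)

lemma cand_iff {Γ : Drawing} {q : ℤ × ℕ} : q ∈ cand (rawOf Γ) ↔ q ∈ queries (rawOf Γ) ∧
    0 < (q.1 : ℝ) / q.2 ∧ (q.1 : ℝ) / q.2 < 1 / 2 ∧ ¬ AdmitsHPED ((q.1 : ℝ) / q.2) Γ := by
  unfold cand
  rw [List.mem_filter]
  refine and_congr_right (fun hq => ?_)
  have h0 := queries_pos hq
  have h1 : (0 : ℝ) < q.2 := by exact_mod_cast h0
  have e1 : 0 < (q.1 : ℝ) / q.2 ↔ 0 < q.1 := by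
    rw [div_pos_iff_of_pos_right h1]
    exact_mod_cast Iff.rfl
  have e2 : (q.1 : ℝ) / q.2 < 1 / 2 ↔ 2 * q.1 < (q.2 : ℤ) := by
    rw [div_lt_div_iff₀ h1 (by norm_num)]
    constructor
    · intro h
      have : ((2 * q.1 : ℤ) : ℝ) < (((q.2 : ℕ) : ℤ) : ℝ) := by push_cast; linarith
      exact_mod_cast this
    · intro h
      have : ((2 * q.1 : ℤ) : ℝ) < (((q.2 : ℕ) : ℤ) : ℝ) := by exact_mod_cast h
      push_cast at this
      linarith
  rw [e1, e2]
  simp only [Bool.and_eq_true, decide_eq_true_eq, Bool.not_eq_true', and_assoc]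
  refine and_congr_right (fun hq1 => and_congr_right (fun _ => ?_))
  rw [← decideK_iff h0 hq1, Bool.not_eq_true]

lemma thr_spec0 (Γ : Drawing) : (thr Γ : ℝ) = 1 / 2 ∨
    ∃ q ∈ cand (rawOf Γ), (thr Γ : ℝ) = (q.1 : ℝ) / q.2 := by
  have h := (minF_aux (cand (rawOf Γ)) (1, 2) (fun q hq => queries_pos (cand_iff.mp hq).1)
    (by norm_num)).1
  have e : (thr Γ : ℝ) = ((minF (cand (rawOf Γ))).1 : ℝ) / (minF (cand (rawOf Γ))).2 := by
    unfold thr
    push_cast
    rfl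
  rw [e]
  rcases List.mem_cons.mp h with h | h
  · left
    have : minF (cand (rawOf Γ)) = (1, 2) := h
    rw [this]
    norm_num
  · right
    exact ⟨_, h, rfl⟩

lemma thr_le (Γ : Drawing) : (thr Γ : ℝ) ≤ 1 / 2 ∧
    ∀ q ∈ cand (rawOf Γ), (thr Γ : ℝ) ≤ (q.1 : ℝ) / q.2 := by
  have h := (minF_aux (cand (rawOf Γ)) (1, 2) (fun q hq => queries_pos (cand_iff.mp hq).1)
    (by norm_num)).2
  have e : (thr Γ : ℝ) = ((minF (cand (rawOf Γ))).1 : ℝ) / (minF (cand (rawOf Γ))).2 := by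
    unfold thr
    push_cast
    rfl
  rw [e]
  refine ⟨?_, fun q hq => h q (List.mem_cons_of_mem _ hq)⟩
  have := h (1, 2) List.mem_cons_self
  norm_num at this
  norm_num
  exact this

lemma thr_pos (Γ : Drawing) : 0 < thr Γ := by
  have : (0 : ℝ) < (thr Γ : ℝ) := by
    rcases thr_spec0 Γ with h | ⟨q, hq, h⟩
    · rw [h]; norm_num
    · rw [h]; exact (cand_iff.mp hq).2.1
  exact_mod_cast this

lemma thr_le_half (Γ : Drawing) : thr Γ ≤ 1 / 2 := by
  have := (thr_le Γ).1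
  have h : ((thr Γ : ℚ) : ℝ) ≤ ((1 / 2 : ℚ) : ℝ) := by push_cast; linarith
  exact_mod_cast h

/-- **The threshold.** -/
theorem thr_iff {δ : ℝ} (h0 : 0 < δ) (h1 : δ < 1 / 2) (Γ : Drawing) :
    AdmitsHPED δ Γ ↔ δ < (thr Γ : ℝ) := by
  constructor
  · intro h
    by_contra hlt
    push Not at hlt
    rcases thr_spec0 Γ with h2 | ⟨q, hq, h2⟩
    · rw [h2] at hlt; linarith
    · obtain ⟨_, h3, _, h4⟩ := cand_iff.mp hq
      rw [h2] at hlt
      exact h4 (admits_mono h h3 hlt)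
  · intro h
    -- the largest positive query that is at most `δ`
    by_cases hex : ∃ q ∈ queries (rawOf Γ), 0 < (q.1 : ℝ) / q.2 ∧ (q.1 : ℝ) / q.2 ≤ δ
    · have hfin : {q : ℤ × ℕ | q ∈ queries (rawOf Γ) ∧ 0 < (q.1 : ℝ) / q.2 ∧
          (q.1 : ℝ) / q.2 ≤ δ}.Finite :=
        (List.finite_toSet (queries (rawOf Γ))).subset (fun q hq => hq.1)
      obtain ⟨q, ⟨hq1, hq2, hq3⟩, hmax⟩ := Set.exists_max_image _
        (fun q : ℤ × ℕ => (q.1 : ℝ) / q.2) hfin hex
      have hadm : AdmitsHPED ((q.1 : ℝ) / q.2) Γ := by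
        by_contra hn
        have hc : q ∈ cand (rawOf Γ) := cand_iff.mpr ⟨hq1, hq2, by linarith, hn⟩
        have := (thr_le Γ).2 q hc
        linarith
      refine (admits_congr h0 hq2 Γ (fun p hp => ?_)).mpr hadm
      constructor
      · intro hpd
        by_cases hp0 : 0 < (p.1 : ℝ) / p.2
        · exact hmax p ⟨hp, hp0, hpd⟩
        · push Not at hp0
          linarith
      · intro hpd
        linarith
    · push Not at hex
      obtain ⟨δ', h2, h3, h4⟩ := exists_small Γ h0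
      refine (admits_congr h0 h2 Γ (fun p hp => ?_)).mpr h4
      constructor
      · intro hpd
        by_contra hcon
        push Not at hcon
        have := hex p hp (by linarith)
        linarith
      · intro hpd
        linarith

/-! ### polynomial time -/

lemma polyTime_cand : PolyTime cand := by
  have hw : PolyTime (fun w : Raw × (ℤ × ℕ) => w) := PolyTime.id
  unfold cand
  exact PolyTime.filter (g := fun w : Raw × (ℤ × ℕ) =>
    (decide (0 < w.2.1) && decide (2 * w.2.1 < (w.2.2 : ℤ))) && !(decideK cmpQ (w.2, w.1)))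
    polyTime_queries
    (((PolyTime.intLt (PolyTime.const 0) hw.snd.fst).and
      (PolyTime.intLt (PolyTime.intMul (PolyTime.const 2) hw.snd.fst) hw.snd.snd.natCast)).and
      ((polyTime_decideK polyTime_cmpQ).comp (hw.snd.pair hw.fst)).not)

lemma polyTime_minF : PolyTime minF := by
  have hw : PolyTime (fun w : List (ℤ × ℕ) × (ℤ × ℕ) × (ℤ × ℕ) => w) := PolyTime.id
  unfold minF
  refine PolyTime.foldl_inv (α := List (ℤ × ℕ)) (l := fun l => l)
    (f := fun _ => (((1 : ℤ), (2 : ℕ)) : ℤ × ℕ))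
    (h := fun w : List (ℤ × ℕ) × (ℤ × ℕ) × (ℤ × ℕ) =>
      minStep w.2.1 w.2.2)
    PolyTime.id (PolyTime.const _)
    (PolyTime.cond (PolyTime.intLt (hw.snd.snd.fst.intMul hw.snd.fst.snd.natCast)
      (hw.snd.fst.fst.intMul hw.snd.snd.snd.natCast)) hw.snd.snd hw.snd.fst)
    (fun l s => s = (1, 2) ∨ s ∈ l) (fun l => Or.inl rfl) ?_ ?_
  · intro l s x hx hs
    show minStep s x = (1, 2) ∨ minStep s x ∈ l
    unfold minStep
    cases decide (x.1 * (s.2 : ℤ) < s.1 * (x.2 : ℤ))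
    · exact hs
    · exact Or.inr hx
  · refine ⟨fun n => size (((1 : ℤ), (2 : ℕ)) : ℤ × ℕ) + n, (PB.const _).add PB.id, ?_⟩
    intro l s hs
    rcases hs with rfl | hs
    · exact Nat.le_add_right _ _
    · have := size_of_mem hs
      show size s ≤ size (((1 : ℤ), (2 : ℕ)) : ℤ × ℕ) + size l
      omega

lemma polyTime_thr : PolyTime thr := by
  have h := polyTime_minF.comp (polyTime_cand.comp polyTime_rawOf)
  exact PolyTime.ratMk h.fst h.snd

end Pool.Agent.H46.HP
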