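import Pool.Agent.H46.HP.Gad

set_option autoImplicit false

/-!
# Recognising the encodings of drawings
-/

namespace Pool.Agent.H46.HP

open Pool.Agent.H80.Poly Pool.Agent.H30.Hped Function

/-! ### points on segments -/

lemma mem_seg_iff (u v p : Plane) : p ∈ segment ℝ u v ↔
    (v 0 - u 0) * (p 1 - u 1) - (v 1 - u 1) * (p 0 - u 0) = 0 ∧
      (p 0 - u 0) * (p 0 - v 0) + (p 1 - u 1) * (p 1 - v 1) ≤ 0 := by
  rw [mem_seg]
  constructor
  · rintro ⟨t, h0, h1, rfl⟩
    simp only [PiLp.add_apply, PiLp.smul_apply, PiLp.sub_apply, smul_eq_mul]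
    refine ⟨by ring, ?_⟩
    have h2 : (u 0 + t * (v 0 - u 0) - u 0) * (u 0 + t * (v 0 - u 0) - v 0) +
        (u 1 + t * (v 1 - u 1) - u 1) * (u 1 + t * (v 1 - u 1) - v 1) =
        -((t * (1 - t)) * ((v 0 - u 0) ^ 2 + (v 1 - u 1) ^ 2)) := by ring
    rw [h2]
    have h3 : 0 ≤ t * (1 - t) := mul_nonneg h0 (by linarith)
    have h4 : 0 ≤ (v 0 - u 0) ^ 2 + (v 1 - u 1) ^ 2 := by positivity
    have := mul_nonneg h3 h4
    linarith
  · rintro ⟨h1, h2⟩
    obtain ⟨a, ha⟩ : ∃ a, a = v 0 - u 0 := ⟨_, rfl⟩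
    obtain ⟨b, hb⟩ : ∃ b, b = v 1 - u 1 := ⟨_, rfl⟩
    obtain ⟨x, hx⟩ : ∃ x, x = p 0 - u 0 := ⟨_, rfl⟩
    obtain ⟨y, hy⟩ : ∃ y, y = p 1 - u 1 := ⟨_, rfl⟩
    have e1 : p 0 - v 0 = x - a := by rw [hx, ha]; ring
    have e2 : p 1 - v 1 = y - b := by rw [hy, hb]; ring
    rw [← ha, ← hb, ← hx, ← hy] at h1
    rw [e1, e2, ← hx, ← hy] at h2
    by_cases hN : a ^ 2 + b ^ 2 = 0
    · have ha0 : a = 0 := by nlinarith [sq_nonneg a, sq_nonneg b]
      have hb0 : b = 0 := by nlinarith [sq_nonneg a, sq_nonneg b]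
      rw [ha0, hb0] at h2
      have hx0 : x = 0 := by nlinarith [sq_nonneg x, sq_nonneg y]
      have hy0 : y = 0 := by nlinarith [sq_nonneg x, sq_nonneg y]
      refine ⟨0, le_rfl, zero_le_one, ?_⟩
      ext i
      fin_cases i
      · simp only [Fin.zero_eta, PiLp.add_apply, PiLp.smul_apply, PiLp.sub_apply, smul_eq_mul]
        linarith
      · simp only [Fin.mk_one, PiLp.add_apply, PiLp.smul_apply, PiLp.sub_apply, smul_eq_mul]
        linarith
    · have hN0 : 0 < a ^ 2 + b ^ 2 := lt_of_le_of_ne (by positivity) (Ne.symm hN)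
      have t1 : (a * x + b * y) / (a ^ 2 + b ^ 2) * a = x := by
        rw [div_mul_eq_mul_div, div_eq_iff hN]
        linear_combination b * h1
      have t2 : (a * x + b * y) / (a ^ 2 + b ^ 2) * b = y := by
        rw [div_mul_eq_mul_div, div_eq_iff hN]
        linear_combination (-a) * h1
      have hs : x ^ 2 + y ^ 2 ≤ a * x + b * y := by nlinarith
      refine ⟨(a * x + b * y) / (a ^ 2 + b ^ 2), ?_, ?_, ?_⟩
      · apply div_nonneg _ hN0.le
        have : 0 ≤ x ^ 2 + y ^ 2 := by positivity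
        linarith
      · rw [div_le_one hN0]
        by_contra hcon
        push Not at hcon
        have h3 : (a * x + b * y) ^ 2 = (a ^ 2 + b ^ 2) * (x ^ 2 + y ^ 2) := by
          linear_combination (-(a * y - b * x)) * h1
        have h4 : (a ^ 2 + b ^ 2) * (x ^ 2 + y ^ 2) ≤ (a ^ 2 + b ^ 2) * (a * x + b * y) :=
          mul_le_mul_of_nonneg_left hs hN0.le
        nlinarith
      · ext i
        fin_cases i
        · simp only [Fin.zero_eta, PiLp.add_apply, PiLp.smul_apply, PiLp.sub_apply, smul_eq_mul]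
          rw [← ha, t1]
          linarith
        · simp only [Fin.mk_one, PiLp.add_apply, PiLp.smul_apply, PiLp.sub_apply, smul_eq_mul]
          rw [← hb, t2]
          linarith

/-- test of `p` lying on the segment from `u` to `v` -/
def onSeg (u v p : RP) : Bool :=
  decide ((cr (vsub v u) (vsub p u)).1 = 0) &&
    decide (0 ≤ (rsub (rmul (vsub p u).1 (vsub v p).1) (rmul (vsub p u).2 (vsub p v).2)).1)

lemma rv_nonneg_iff {x : RQ} (hx : 0 < x.2) : 0 ≤ rv x ↔ 0 ≤ x.1 := by
  have h1 : (0 : ℝ) < x.2 := by exact_mod_cast hx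
  unfold rv
  rw [div_nonneg_iff]
  constructor
  · rintro (⟨h, _⟩ | ⟨_, h⟩)
    · exact_mod_cast h
    · exact absurd h (not_le.mpr h1)
  · intro h
    exact Or.inl ⟨by exact_mod_cast h, h1.le⟩

lemma onSeg_iff {u v p : RP} (hu : PosP u) (hv : PosP v) (hp : PosP p) : onSeg u v p = true ↔
    (rv v.1 - rv u.1) * (rv p.2 - rv u.2) - (rv v.2 - rv u.2) * (rv p.1 - rv u.1) = 0 ∧
      (rv p.1 - rv u.1) * (rv p.1 - rv v.1) + (rv p.2 - rv u.2) * (rv p.2 - rv v.2) ≤ 0 := by
  unfold onSeg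
  rw [Bool.and_eq_true, decide_eq_true_eq, decide_eq_true_eq]
  obtain ⟨c1, c2⟩ := cr_spec hu hv hu hp
  have d1 : 0 < (rmul (vsub p u).1 (vsub v p).1).2 :=
    rmul_pos (rsub_pos hp.1 hu.1) (rsub_pos hv.1 hp.1)
  have d2 : 0 < (rmul (vsub p u).2 (vsub p v).2).2 :=
    rmul_pos (rsub_pos hp.2 hu.2) (rsub_pos hp.2 hv.2)
  rw [← rv_eq_zero_iff c1, ← rv_nonneg_iff (rsub_pos d1 d2), c2, rv_rsub d1 d2, rv_rmul, rv_rmul]
  unfold vsub rdet
  simp only
  rw [rv_rsub hp.1 hu.1, rv_rsub hv.1 hp.1, rv_rsub hp.2 hu.2, rv_rsub hp.2 hv.2]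
  refine and_congr_right (fun _ => ?_)
  constructor
  · intro h; nlinarith
  · intro h; nlinarith

/-! ### raw forms of lists of rational points -/

/-- the rational point of a pair of fractions -/
def toQ (p : (ℤ × ℕ) × (ℤ × ℕ)) : ℚ × ℚ := ((p.1.1 : ℚ) / p.1.2, (p.2.1 : ℚ) / p.2.2)

/-- numerators and denominators of the coordinates -/
def rawP (p : ℚ × ℚ) : (ℤ × ℕ) × (ℤ × ℕ) := ((p.1.num, p.1.den), (p.2.num, p.2.den))

lemma toQ_rawP (p : ℚ × ℚ) : toQ (rawP p) = p :=
  Prod.ext (Rat.num_div_den p.1) (Rat.num_div_den p.2)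

/-- reduction of all coordinates -/
def nf (P : List ((ℤ × ℕ) × (ℤ × ℕ))) : List ((ℤ × ℕ) × (ℤ × ℕ)) :=
  P.map (fun p => (red p.1, red p.2))

lemma nf_eq (P : List ((ℤ × ℕ) × (ℤ × ℕ))) : nf P = (P.map toQ).map rawP := by
  unfold nf
  rw [List.map_map]
  apply List.map_congr_left
  intro p _
  rw [red_eq, red_eq]
  rfl

lemma rpt_rawP (P : List (ℚ × ℚ)) (k : ℕ) : PosP (rpt (P.map rawP) k) ∧
    rv (rpt (P.map rawP) k).1 = pos P k 0 ∧ rv (rpt (P.map rawP) k).2 = pos P k 1 := by
  have h : (P.map rawP).getD k ((0, 1), (0, 1)) = rawP (P.getD k (0, 0)) := by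
    by_cases hk : k < P.length
    · rw [List.getD_eq_getElem _ _ hk, List.getD_eq_getElem _ _ (by rw [List.length_map]; exact hk),
        List.getElem_map]
    · rw [List.getD_eq_default _ _ (by simp only [List.length_map]; omega),
        List.getD_eq_default _ _ (by omega)]
      rfl
  unfold rpt PosP rv
  rw [h]
  unfold rawP
  simp only
  have key : ∀ x : ℚ, ((x.num : ℤ) : ℝ) / (((x.den : ℕ) : ℤ) : ℝ) = (x : ℝ) := by
    intro x
    rw [Rat.cast_def, Int.cast_natCast]
  refine ⟨⟨by exact_mod_cast Rat.den_pos _, by exact_mod_cast Rat.den_pos _⟩, ?_, ?_⟩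
  · rw [key]; simp [pos]
  · rw [key]; simp [pos]

lemma onSeg_rawP (P : List (ℚ × ℚ)) (i j k : ℕ) :
    onSeg (rpt (P.map rawP) i) (rpt (P.map rawP) j) (rpt (P.map rawP) k) = true ↔
      pos P k ∈ segment ℝ (pos P i) (pos P j) := by
  rw [mem_seg_iff, onSeg_iff (rpt_rawP P i).1 (rpt_rawP P j).1 (rpt_rawP P k).1,
    (rpt_rawP P i).2.1, (rpt_rawP P i).2.2, (rpt_rawP P j).2.1, (rpt_rawP P j).2.2,
    (rpt_rawP P k).2.1, (rpt_rawP P k).2.2]

/-! ### the test -/

/-- test of a list having no repetitions -/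
def nodupB {β : Type} [DecidableEq β] (l : List β) : Bool :=
  l.all (fun x => decide (l.countP (fun y => decide (y = x)) ≤ 1))

lemma nodupB_iff {β : Type} [DecidableEq β] (l : List β) : nodupB l = true ↔ l.Nodup := by
  unfold nodupB
  rw [List.all_eq_true, List.nodup_iff_count_le_one]
  have h : ∀ x, l.countP (fun y => decide (y = x)) = l.count x := by
    intro x
    unfold List.count
    apply List.countP_congr
    intro y _
    simp
  constructor
  · intro h1 x
    by_cases hx : x ∈ l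
    · have := h1 x hx
      rw [decide_eq_true_eq, h] at this
      exact this
    · rw [List.count_eq_zero_of_not_mem hx]
      exact Nat.zero_le _
  · intro h1 x _
    rw [decide_eq_true_eq, h]
    exact h1 x

/-- test of a raw drawing being the raw form of a drawing -/
def validRaw (G : Raw) : Bool :=
  decide (nf G.1 = G.1) && (nodupB G.1 && (nodupB G.2 &&
    (G.2.all (fun e => decide (e.1 < e.2) && decide (e.2 < G.1.length)) &&
      G.2.all (fun e => (List.range G.1.length).all (fun k =>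
        (decide (k = e.1) || decide (k = e.2)) ||
          !(onSeg (rpt G.1 e.1) (rpt G.1 e.2) (rpt G.1 k)))))))

theorem validRaw_iff (G : Raw) : validRaw G = true ↔ ∃ Γ : Drawing, rawOf Γ = G := by
  unfold validRaw
  simp only [Bool.and_eq_true, decide_eq_true_eq, nodupB_iff, List.all_eq_true, List.mem_range]
  constructor
  · rintro ⟨h1, h2, h3, h4, h5⟩
    have hG : (G.1.map toQ).map rawP = G.1 := by rw [← nf_eq]; exact h1
    have hlen : (G.1.map toQ).length = G.1.length := List.length_map _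
    refine ⟨⟨G.1.map toQ, G.2, ?_, h3, ?_, ?_⟩, ?_⟩
    · apply List.Nodup.of_map rawP
      rw [hG]
      exact h2
    · intro e he
      rw [hlen]
      exact h4 e he
    · intro e he k hk hm
      rw [hlen] at hk
      have := h5 e he k hk
      rw [← onSeg_rawP, hG] at hm
      rw [hm] at this
      simpa using this
    · show ((G.1.map toQ).map rawP, G.2) = G
      rw [hG]
  · rintro ⟨Γ, rfl⟩
    have hr : (rawOf Γ).1 = Γ.pts.map rawP := rfl
    have he : (rawOf Γ).2 = Γ.edges := rfl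
    have hlen : (rawOf Γ).1.length = Γ.pts.length := List.length_map _
    rw [he, hlen]
    refine ⟨?_, ?_, Γ.simple, Γ.valid, ?_⟩
    · have h : (Γ.pts.map rawP).map toQ = Γ.pts := by
        have h' : (toQ ∘ rawP) = id := funext toQ_rawP
        rw [List.map_map, h', List.map_id]
      rw [nf_eq, hr, h]
    · rw [hr]
      refine List.Nodup.map ?_ Γ.distinct
      intro p q hpq
      rw [← toQ_rawP p, hpq, toQ_rawP]
    · intro e he' k hk
      rw [hr]
      by_cases hm : pos Γ.pts k ∈ segment ℝ (pos Γ.pts e.1) (pos Γ.pts e.2)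
      · rcases Γ.noPass e he' k hk hm with h | h
        · simp [h]
        · simp [h]
      · rw [← onSeg_rawP, Bool.not_eq_true] at hm
        rw [hm]
        simp

/-! ### polynomial time -/

variable {α : Type} [BEnc α]

lemma polyTime_onSeg {u v p : α → RP} (hu : PolyTime u) (hv : PolyTime v) (hp : PolyTime p) :
    PolyTime (fun a => onSeg (u a) (v a) (p a)) :=
  (PolyTime.eq (polyTime_cr (polyTime_vsub hv hu) (polyTime_vsub hp hu)).fst
    (PolyTime.const 0)).and
  (PolyTime.intLe (PolyTime.const 0) (polyTime_rsub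
    (polyTime_rmul (polyTime_vsub hp hu).fst (polyTime_vsub hv hp).fst)
    (polyTime_rmul (polyTime_vsub hp hu).snd (polyTime_vsub hp hv).snd)).fst)

lemma polyTime_nodupB {β : Type} [BEnc β] [DecidableEq β] {l : α → List β} (hl : PolyTime l) :
    PolyTime (fun a => nodupB (l a)) := by
  have hw : PolyTime (fun w : α × β => w) := PolyTime.id
  have hz : PolyTime (fun w : (α × β) × β => w) := PolyTime.id
  exact PolyTime.all (g := fun w : α × β =>
      decide ((l w.1).countP (fun y => decide (y = w.2)) ≤ 1)) hl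
    (PolyTime.le (PolyTime.countP (g := fun w : (α × β) × β => decide (w.2 = w.1.2))
      (hl.comp hw.fst) (PolyTime.eq hz.snd hz.fst.snd)) (PolyTime.const 1))

lemma polyTime_validRaw : PolyTime validRaw := by
  have hx : PolyTime (fun x : Raw => x) := PolyTime.id
  have hw : PolyTime (fun w : Raw × (ℕ × ℕ) => w) := PolyTime.id
  have hz : PolyTime (fun w : (Raw × (ℕ × ℕ)) × ℕ => w) := PolyTime.id
  have hp : PolyTime (fun w : Raw × ((ℤ × ℕ) × (ℤ × ℕ)) => w) := PolyTime.id
  have h1 : PolyTime (fun G : Raw => nf G.1) :=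
    PolyTime.map (g := fun w : Raw × ((ℤ × ℕ) × (ℤ × ℕ)) => (red w.2.1, red w.2.2)) hx.fst
      ((polyTime_red hp.snd.fst).pair (polyTime_red hp.snd.snd))
  have h2 : PolyTime (fun G : Raw => G.2.all (fun e => decide (e.1 < e.2) &&
      decide (e.2 < G.1.length))) :=
    PolyTime.all (g := fun w : Raw × (ℕ × ℕ) => decide (w.2.1 < w.2.2) &&
      decide (w.2.2 < w.1.1.length)) hx.snd
      ((PolyTime.lt hw.snd.fst hw.snd.snd).and (PolyTime.lt hw.snd.snd hw.fst.fst.length))
  have hr : PolyTime (fun w : Raw × (ℕ × ℕ) => List.range w.1.1.length) := by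
    refine PolyTime.range hw.fst.fst.length ⟨fun n => n, PB.id, fun w => ?_⟩
    have h3 := length_le_size w.1.1
    show w.1.1.length ≤ size w
    rw [size_prod, size_prod]
    omega
  have h3 : PolyTime (fun G : Raw => G.2.all (fun e => (List.range G.1.length).all (fun k =>
        (decide (k = e.1) || decide (k = e.2)) ||
          !(onSeg (rpt G.1 e.1) (rpt G.1 e.2) (rpt G.1 k))))) :=
    PolyTime.all (g := fun w : Raw × (ℕ × ℕ) => (List.range w.1.1.length).all (fun k =>
        (decide (k = w.2.1) || decide (k = w.2.2)) ||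
          !(onSeg (rpt w.1.1 w.2.1) (rpt w.1.1 w.2.2) (rpt w.1.1 k)))) hx.snd
      (PolyTime.all (g := fun w : (Raw × (ℕ × ℕ)) × ℕ =>
        (decide (w.2 = w.1.2.1) || decide (w.2 = w.1.2.2)) ||
          !(onSeg (rpt w.1.1.1 w.1.2.1) (rpt w.1.1.1 w.1.2.2) (rpt w.1.1.1 w.2))) hr
        (((PolyTime.eq hz.snd hz.fst.snd.fst).or (PolyTime.eq hz.snd hz.fst.snd.snd)).or
          (polyTime_onSeg (polyTime_rpt hz.fst.fst.fst hz.fst.snd.fst)
            (polyTime_rpt hz.fst.fst.fst hz.fst.snd.snd)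
            (polyTime_rpt hz.fst.fst.fst hz.snd)).not))
  exact (PolyTime.eq h1 hx.fst).and ((polyTime_nodupB hx.fst).and
    ((polyTime_nodupB hx.snd).and (h2.and h3)))

end Pool.Agent.H46.HP
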